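import Mathlib

/-!
PROJECT CMT, part E (see-saw): explicit theta forms and the theta kernel in two variables.

`F` is a (totally real) number field, `T = (F →+* ℝ)`, `t0 : T`.
`H = diag(1,1,-β)`; `qf b x = x1² + x2² - b x3²`.
The point `z = (z1, z2)` of the ball `|z1|² + |z2|² < t0 β`.
`uu b x z = (x1 z1 + x2 z2 - b x3) / sqrt(b - z1² - z2²)`, `du` is its gradient (both coefficients).
`om` is the theta 1-form (pair of coefficients of dz1, dz2), `KK` the kernel (coefficient of dz1 dz2).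
-/

namespace CMT

open Finset

noncomputable section

/-- `q(x) = x1² + x2² - b x3²`. -/
def qf (b : ℝ) (x : Fin 3 → ℝ) : ℝ := x 0 ^ 2 + x 1 ^ 2 - b * x 2 ^ 2

/-- `s(z) = sqrt(b - z1² - z2²)`. -/
def ss (b : ℝ) (z : ℂ × ℂ) : ℂ := ((b : ℂ) - z.1 ^ 2 - z.2 ^ 2) ^ ((1 : ℂ) / 2)

/-- `(x, ẑ) = x1 z1 + x2 z2 - b x3`. -/
def ll (b : ℝ) (x : Fin 3 → ℝ) (z : ℂ × ℂ) : ℂ :=
  (x 0 : ℂ) * z.1 + (x 1 : ℂ) * z.2 - (b : ℂ) * (x 2 : ℂ)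

/-- `u_x(z) = (x, ẑ) / s(z)`. -/
def uu (b : ℝ) (x : Fin 3 → ℝ) (z : ℂ × ℂ) : ℂ := ll b x z / ss b z

/-- The gradient of `u_x` in `z`: coefficients of `dz1` and `dz2`. -/
def du (b : ℝ) (x : Fin 3 → ℝ) (z : ℂ × ℂ) : ℂ × ℂ :=
  (((x 0 : ℂ) * ss b z ^ 2 + ll b x z * z.1) / ss b z ^ 3,
    ((x 1 : ℂ) * ss b z ^ 2 + ll b x z * z.2) / ss b z ^ 3)

/-- The coefficient of `dz1 dz2` in the product of two 1-forms. -/
def wedge (p q : ℂ × ℂ) : ℂ := p.1 * q.2 - p.2 * q.1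

variable {F : Type*} [Field F] [NumberField F]

/-- The vector of real numbers `(t x_i)`. -/
def vt (t : F →+* ℝ) (x : Fin 3 → F) : Fin 3 → ℝ := fun i => t (x i)

/-- Schwartz-Bruhat functions: support in `(1/N) O_F^n`, period `N O_F^n`. -/
def IsSB {ι : Type*} (φ : (ι → F) → ℂ) : Prop :=
  ∃ N : ℕ, 0 < N ∧ (∀ x, φ x ≠ 0 → ∀ i, IsIntegral ℤ ((N : F) * x i)) ∧
    ∀ x y : ι → F, (∀ i, IsIntegral ℤ (y i)) → φ (fun i => x i + (N : F) * y i) = φ x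

/-- Schwartz-Bruhat functions of two vectors. -/
def IsSB2 {ι : Type*} (ψ : (ι → F) × (ι → F) → ℂ) : Prop :=
  ∃ N : ℕ, 0 < N ∧
    (∀ p, ψ p ≠ 0 → (∀ i, IsIntegral ℤ ((N : F) * p.1 i)) ∧ ∀ i, IsIntegral ℤ ((N : F) * p.2 i)) ∧
    ∀ p y : (ι → F) × (ι → F), (∀ i, IsIntegral ℤ (y.1 i)) → (∀ i, IsIntegral ℤ (y.2 i)) →
      ψ (fun i => p.1 i + (N : F) * y.1 i, fun i => p.2 i + (N : F) * y.2 i) = ψ p

/-- The exponent of the theta form at the place `t ≠ t0`: `(π/√tD) |t a| q_t(x)`. -/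
def e1 (D β a : F) (t : F →+* ℝ) (x : Fin 3 → F) : ℝ :=
  Real.pi / Real.sqrt (t D) * (|t a| * qf (t β) (vt t x))

/-- The exponent at `t0`: `(π/√tD) |t a| ((x,x) + 2 u_x(z)²)`. -/
def e0 (D β a : F) (t : F →+* ℝ) (x : Fin 3 → F) (z : ℂ × ℂ) : ℂ :=
  (Real.pi / Real.sqrt (t D) : ℝ) * ((|t a| : ℝ) *
    ((qf (t β) (vt t x) : ℂ) + 2 * uu (t β) (vt t x) z ^ 2))

open Classical in
/-- The term of the theta 1-form. -/
def omt (D β : F) (t0 : F →+* ℝ) (a : F) (z : ℂ × ℂ) (x : Fin 3 → F) : ℂ × ℂ :=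
  Complex.exp (-(((∑ t ∈ univ.erase t0, e1 D β a t x : ℝ) : ℂ) + e0 D β a t0 x z)) •
    du (t0 β) (vt t0 x) z

/-- The theta 1-form `ω_{a,φ}` (pair of coefficients). -/
def om (D β : F) (t0 : F →+* ℝ) (a : F) (φ : (Fin 3 → F) → ℂ) (z : ℂ × ℂ) : ℂ × ℂ :=
  (∑' x, φ x * (omt D β t0 a z x).1, ∑' x, φ x * (omt D β t0 a z x).2)

/-- The majorant at a place with `t a1`, `t a2` of different signs. -/
def maj (b : ℝ) (r : ℝ) (X Y : Fin 3 → ℝ) : ℝ :=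
  qf b (fun i => Real.cosh r * X i + Real.sinh r * Y i) +
    qf b (fun i => Real.sinh r * X i + Real.cosh r * Y i)

open Classical in
/-- The exponent of the kernel at `t ≠ t0`. -/
def e2 (D β a1 a2 : F) (t : F →+* ℝ) (r : ℝ) (p : (Fin 3 → F) × (Fin 3 → F)) : ℝ :=
  Real.pi / Real.sqrt (t D) * (if t a1 * t a2 < 0 then
      maj (t β) r (fun i => Real.sqrt |t a1| * t (p.1 i)) (fun i => Real.sqrt |t a2| * t (p.2 i))
    else |t a1| * qf (t β) (vt t p.1) + |t a2| * qf (t β) (vt t p.2))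

open Classical in
/-- The term of the kernel. -/
def KKt (D β : F) (t0 : F →+* ℝ) (a1 a2 : F) (z : ℂ × ℂ) (r : (F →+* ℝ) → ℝ)
    (p : (Fin 3 → F) × (Fin 3 → F)) : ℂ :=
  Complex.exp (-(((∑ t ∈ univ.erase t0, e2 D β a1 a2 t (r t) p : ℝ) : ℂ) +
      (e0 D β a1 t0 p.1 z + e0 D β a2 t0 p.2 z))) *
    wedge (du (t0 β) (vt t0 p.1) z) (du (t0 β) (vt t0 p.2) z)

/-- The kernel `K_ψ(z; r)` (coefficient of `dz1 dz2`). -/
def KK (D β : F) (t0 : F →+* ℝ) (a1 a2 : F) (ψ : (Fin 3 → F) × (Fin 3 → F) → ℂ) (z : ℂ × ℂ)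
    (r : (F →+* ℝ) → ℝ) : ℂ :=
  ∑' p, ψ p * KKt D β t0 a1 a2 z r p

end

end CMT
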