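import Mathlib
import Pool.Agent.Lib.CMT.H.Signs

/-!
PROJECT CMT, part E, (E3): a continuous function on an open subset of `ℝ^T` which vanishes at the
points of `F` is zero.
-/

namespace CMT

open Set

variable {F : Type*} [Field F] [NumberField F]

/-- `F` is dense in `ℝ^T`. -/
theorem dense_embv : DenseRange (fun (x : F) (t : F →+* ℝ) => t x) := by
  intro v
  rw [Metric.mem_closure_iff]
  intro ε hε
  obtain ⟨x, hx⟩ := exists_close v (half_pos hε)
  refine ⟨_, ⟨x, rfl⟩, ?_⟩
  rw [dist_comm]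
  refine lt_of_le_of_lt ((dist_pi_le_iff (half_pos hε).le).mpr (fun t => ?_)) (half_lt_self hε)
  rw [Real.dist_eq]
  exact (hx t).le

/-- (E3) A function continuous on an open set `U` which vanishes at the points of `F` in `U`
vanishes on `U`. -/
theorem eq_zero_of_rational {Y : Type*} [TopologicalSpace Y] [T1Space Y] [Zero Y]
    {U : Set ((F →+* ℝ) → ℝ)} (hU : IsOpen U) {f : ((F →+* ℝ) → ℝ) → Y}
    (hf : ContinuousOn f U) (h0 : ∀ x : F, (fun t => t x) ∈ U → f (fun t => t x) = 0)
    {v : (F →+* ℝ) → ℝ} (hv : v ∈ U) : f v = 0 := by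
  have hd : v ∈ closure (U ∩ range (fun (x : F) (t : F →+* ℝ) => t x)) := by
    have := hU.inter_closure (s := U) (t := range (fun (x : F) (t : F →+* ℝ) => t x))
    exact this ⟨hv, dense_embv v⟩
  have hmaps : MapsTo f (U ∩ range (fun (x : F) (t : F →+* ℝ) => t x)) {0} := by
    rintro _ ⟨hxU, x, rfl⟩
    exact h0 x hxU
  have := (hf v hv).mono inter_subset_left |>.mem_closure hd hmaps
  rwa [isClosed_singleton.closure_eq] at this

/-- The same for a function of the parameters `g (t, v t)` at the places in a set `S` only. -/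
theorem eq_zero_of_rational_comp {Y : Type*} [TopologicalSpace Y] [T1Space Y] [Zero Y]
    {S : Set (F →+* ℝ)} (c : (F →+* ℝ) → ℝ) (g : (F →+* ℝ) → ℝ → ℝ)
    (hg : ∀ t ∈ S, ContinuousOn (g t) (Ioo (-c t) (c t)))
    (hg' : ∀ t ∉ S, Continuous (g t))
    {Λ : ((F →+* ℝ) → ℝ) → Y} (hΛ : Continuous Λ)
    (hS : ∀ r r' : (F →+* ℝ) → ℝ, (∀ t ∈ S, r t = r' t) → Λ r = Λ r')
    (h0 : ∀ x : F, (∀ t ∈ S, |t x| < c t) → Λ (fun t => g t (t x)) = 0)
    (r : (F →+* ℝ) → ℝ) (hr : ∀ t ∈ S, ∃ u, |u| < c t ∧ g t u = r t) : Λ r = 0 := by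
  classical
  let U : Set ((F →+* ℝ) → ℝ) := {w | ∀ t ∈ S, |w t| < c t}
  have : Finite (F →+* ℝ) := Finite.of_injective
    (fun t : F →+* ℝ => (Complex.ofRealHom.comp t : F →+* ℂ)) (by
      intro s t hst
      ext x
      have h := RingHom.congr_fun hst x
      simpa using h)
  have hU : IsOpen U := by
    have : U = ⋂ t : (F →+* ℝ), {w | t ∈ S → |w t| < c t} := by
      ext w; simp [U]
    rw [this]
    refine isOpen_iInter_of_finite (fun t => ?_)
    by_cases ht : t ∈ S
    · simp only [ht, true_imp_iff]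
      exact isOpen_lt (continuous_abs.comp (continuous_apply t)) continuous_const
    · simp [ht]
  have hcont : ContinuousOn (fun w : (F →+* ℝ) → ℝ => Λ (fun t => g t (w t))) U := by
    refine hΛ.comp_continuousOn (continuousOn_pi.mpr (fun t => ?_))
    by_cases ht : t ∈ S
    · exact (hg t ht).comp (continuous_apply t).continuousOn (fun w hw => abs_lt.mp (hw t ht))
    · exact ((hg' t ht).comp (continuous_apply t)).continuousOn
  let u : (F →+* ℝ) → ℝ := fun t => if ht : t ∈ S then (hr t ht).choose else 0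
  have hu : u ∈ U := by
    intro t ht
    simp only [u, dif_pos ht]
    exact (hr t ht).choose_spec.1
  have key := eq_zero_of_rational hU hcont (fun x hx => h0 x hx) hu
  rw [← key]
  refine hS _ _ (fun t ht => ?_)
  simp only [u, dif_pos ht]
  exact (hr t ht).choose_spec.2.symm

end CMT
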