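import Pool.Agent.Lib.CMT.Iface
import Pool.Agent.Lib.CMT.E.SBn

/-!
PROJECT CMT, part E: `S_SubSB` and `S_Fin`.
-/

namespace CMT

/-- Schwartz-Bruhat functions are stable under the substitution `subP`. -/
theorem subSB : S_SubSB := by
  intro F _ _ a1 a2 X Y h1 h2 h3 ψ hψ
  obtain ⟨n, hn, hS⟩ := hψ
  have hdet : X * (a1 * X) - (-(a2 * Y)) * Y ≠ 0 := by
    have : X * (a1 * X) - (-(a2 * Y)) * Y = a3 a1 a2 X Y := by
      unfold a3; ring
    rw [this]; exact h3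
  obtain ⟨M, hM, hS'⟩ := hS.comp_gl2 X (-(a2 * Y)) Y (a1 * X) hdet
  refine ⟨n * M, Nat.mul_pos hn hM, ?_⟩
  have : (fun p : (Fin 3 → F) × (Fin 3 → F) => ψ (subP a1 a2 X Y p)) =
      fun p => ψ (fun i => X * p.1 i + -(a2 * Y) * p.2 i, fun i => Y * p.1 i + a1 * X * p.2 i) := by
    funext p
    congr 1
    ext i
    · simp only [subP]; ring
    · simp only [subP]
  rw [this]
  exact hS'

/-- A Schwartz-Bruhat function of two vectors is a finite sum of products. -/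
theorem fin : S_Fin := by
  intro F _ _ ψ hψ
  obtain ⟨n, hn, hS⟩ := hψ
  obtain ⟨k, φ, φ', h1, h2, h3⟩ := hS.exists_sum hn
  exact ⟨k, φ, φ', fun j => ⟨n, hn, h1 j⟩, fun j => ⟨n, hn, h2 j⟩, h3⟩

end CMT
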