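import Pool.Agent.Lib.CMT.E.Defs

/-!
PROJECT CMT, part E: the substitution lemma for the kernel.
-/

namespace CMT

open Finset

/-- The linear substitution `(x,y) ↦ (A x + B y, C x + D y)` on pairs of vectors. -/
def sub2 {F : Type*} [Field F] (A B C D : F) (p : (Fin 3 → F) × (Fin 3 → F)) :
    (Fin 3 → F) × (Fin 3 → F) :=
  (fun i => A * p.1 i + B * p.2 i, fun i => C * p.1 i + D * p.2 i)

/-- The substitution as an equivalence. -/
def sub2E {F : Type*} [Field F] (A B C D : F) (h : A * D - B * C ≠ 0) :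
    (Fin 3 → F) × (Fin 3 → F) ≃ (Fin 3 → F) × (Fin 3 → F) where
  toFun := sub2 A B C D
  invFun := sub2 (D * (A * D - B * C)⁻¹) (-B * (A * D - B * C)⁻¹) (-C * (A * D - B * C)⁻¹)
    (A * (A * D - B * C)⁻¹)
  left_inv p := by
    rcases p with ⟨x, y⟩
    have e := mul_inv_cancel₀ h
    ext i
    · show D * (A * D - B * C)⁻¹ * (A * x i + B * y i) +
        -B * (A * D - B * C)⁻¹ * (C * x i + D * y i) = x i
      linear_combination x i * e
    · show -C * (A * D - B * C)⁻¹ * (A * x i + B * y i) +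
        A * (A * D - B * C)⁻¹ * (C * x i + D * y i) = y i
      linear_combination y i * e
  right_inv p := by
    rcases p with ⟨x, y⟩
    have e := mul_inv_cancel₀ h
    ext i
    · show A * (D * (A * D - B * C)⁻¹ * x i + -B * (A * D - B * C)⁻¹ * y i) +
        B * (-C * (A * D - B * C)⁻¹ * x i + A * (A * D - B * C)⁻¹ * y i) = x i
      linear_combination x i * e
    · show C * (D * (A * D - B * C)⁻¹ * x i + -B * (A * D - B * C)⁻¹ * y i) +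
        D * (-C * (A * D - B * C)⁻¹ * x i + A * (A * D - B * C)⁻¹ * y i) = y i
      linear_combination y i * e

theorem maj_eq (b r : ℝ) (X Y : Fin 3 → ℝ) :
    maj b r X Y = Real.cosh (2 * r) * (qf b X + qf b Y) +
      2 * Real.sinh (2 * r) * (X 0 * Y 0 + X 1 * Y 1 - b * (X 2 * Y 2)) := by
  rw [Real.cosh_two_mul, Real.sinh_two_mul]
  simp only [maj, qf]
  ring

/-- Gram identities: the quadratic form at a place where `a1, a2 > 0`, with the extra `u`-term. -/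
theorem du_lin (b A B : ℝ) (x y : Fin 3 → ℝ) (z : ℂ × ℂ) :
    du b (fun i => A * x i + B * y i) z = (A : ℂ) • du b x z + (B : ℂ) • du b y z := by
  ext
  · simp only [du, ll, Prod.fst_add, Prod.smul_fst, smul_eq_mul]
    push_cast
    ring
  · simp only [du, ll, Prod.snd_add, Prod.smul_snd, smul_eq_mul]
    push_cast
    ring

theorem uu_lin (b A B : ℝ) (x y : Fin 3 → ℝ) (z : ℂ × ℂ) :
    uu b (fun i => A * x i + B * y i) z = (A : ℂ) * uu b x z + (B : ℂ) * uu b y z := by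
  simp only [uu, ll]
  push_cast
  ring

theorem wedge_lin (A B C D : ℂ) (p q : ℂ × ℂ) :
    wedge (A • p + B • q) (C • p + D • q) = (A * D - B * C) * wedge p q := by
  simp only [wedge, Prod.fst_add, Prod.snd_add, Prod.smul_fst, Prod.smul_snd, smul_eq_mul]
  ring

theorem qf_lin (b A B : ℝ) (x y : Fin 3 → ℝ) :
    qf b (fun i => A * x i + B * y i) = A ^ 2 * qf b x + B ^ 2 * qf b y +
      2 * A * B * (x 0 * y 0 + x 1 * y 1 - b * (x 2 * y 2)) := by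
  simp only [qf]
  ring

/-- Gram identity for `qf`. -/
theorem qf_gram (b a1 a2 a3 a4 A B C D : ℝ) (h3 : a1 * A ^ 2 + a2 * C ^ 2 = a3)
    (h4 : a1 * B ^ 2 + a2 * D ^ 2 = a4) (h0 : a1 * A * B + a2 * C * D = 0)
    (x y : Fin 3 → ℝ) :
    a1 * qf b (fun i => A * x i + B * y i) + a2 * qf b (fun i => C * x i + D * y i) =
      a3 * qf b x + a4 * qf b y := by
  rw [qf_lin, qf_lin]
  linear_combination qf b x * h3 + qf b y * h4 +
    2 * (x 0 * y 0 + x 1 * y 1 - b * (x 2 * y 2)) * h0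

/-- Gram identity for `u²`. -/
theorem uu_gram (b a1 a2 a3 a4 A B C D : ℝ) (h3 : a1 * A ^ 2 + a2 * C ^ 2 = a3)
    (h4 : a1 * B ^ 2 + a2 * D ^ 2 = a4) (h0 : a1 * A * B + a2 * C * D = 0)
    (x y : Fin 3 → ℝ) (z : ℂ × ℂ) :
    (a1 : ℂ) * uu b (fun i => A * x i + B * y i) z ^ 2 +
      a2 * uu b (fun i => C * x i + D * y i) z ^ 2 =
      a3 * uu b x z ^ 2 + a4 * uu b y z ^ 2 := by
  rw [uu_lin, uu_lin]
  have h3' : (a1 : ℂ) * A ^ 2 + a2 * C ^ 2 = a3 := by exact_mod_cast h3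
  have h4' : (a1 : ℂ) * B ^ 2 + a2 * D ^ 2 = a4 := by exact_mod_cast h4
  have h0' : (a1 : ℂ) * A * B + a2 * C * D = 0 := by exact_mod_cast h0
  linear_combination uu b x z ^ 2 * h3' + uu b y z ^ 2 * h4' +
    2 * uu b x z * uu b y z * h0'

variable {F : Type*} [Field F] [NumberField F]

private theorem vt1 (t : F →+* ℝ) (A B C D : F) (p : (Fin 3 → F) × (Fin 3 → F)) :
    vt t (sub2 A B C D p).1 = fun i => t A * vt t p.1 i + t B * vt t p.2 i := by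
  funext i
  simp [vt, sub2]

private theorem vt2 (t : F →+* ℝ) (A B C D : F) (p : (Fin 3 → F) × (Fin 3 → F)) :
    vt t (sub2 A B C D p).2 = fun i => t C * vt t p.1 i + t D * vt t p.2 i := by
  funext i
  simp [vt, sub2]

private theorem mapsq (t : F →+* ℝ) {a1 a2 a3 A C : F} (h : a1 * A ^ 2 + a2 * C ^ 2 = a3) :
    t a1 * t A ^ 2 + t a2 * t C ^ 2 = t a3 := by
  rw [← h]
  simp

private theorem map0 (t : F →+* ℝ) {a1 a2 A B C D : F} (h : a1 * A * B + a2 * C * D = 0) :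
    t a1 * t A * t B + t a2 * t C * t D = 0 := by
  have := congrArg t h
  simpa using this

/-- The exponent at `t0`. -/
theorem e0_gram (Δ β a1 a2 a3 a4 A B C D : F) (t0 : F →+* ℝ)
    (h3 : a1 * A ^ 2 + a2 * C ^ 2 = a3)
    (h4 : a1 * B ^ 2 + a2 * D ^ 2 = a4) (h0 : a1 * A * B + a2 * C * D = 0)
    (p1 : 0 < t0 a1) (p2 : 0 < t0 a2) (z : ℂ × ℂ) (p : (Fin 3 → F) × (Fin 3 → F)) :
    e0 Δ β a1 t0 (sub2 A B C D p).1 z + e0 Δ β a2 t0 (sub2 A B C D p).2 z =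
      e0 Δ β a3 t0 p.1 z + e0 Δ β a4 t0 p.2 z := by
  have H3 := mapsq t0 h3
  have H4 := mapsq t0 h4
  have H0 := map0 t0 h0
  have p3 : 0 ≤ t0 a3 := by rw [← H3]; positivity
  have p4 : 0 ≤ t0 a4 := by rw [← H4]; positivity
  have Q := qf_gram (t0 β) _ _ _ _ _ _ _ _ H3 H4 H0 (vt t0 p.1) (vt t0 p.2)
  have U := uu_gram (t0 β) _ _ _ _ _ _ _ _ H3 H4 H0 (vt t0 p.1) (vt t0 p.2) z
  have Q' : (t0 a1 : ℂ) * (qf (t0 β) (fun i => t0 A * vt t0 p.1 i + t0 B * vt t0 p.2 i) : ℝ) +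
      (t0 a2 : ℂ) * (qf (t0 β) (fun i => t0 C * vt t0 p.1 i + t0 D * vt t0 p.2 i) : ℝ) =
      (t0 a3 : ℂ) * (qf (t0 β) (vt t0 p.1) : ℝ) + (t0 a4 : ℂ) * (qf (t0 β) (vt t0 p.2) : ℝ) := by
    exact_mod_cast Q
  simp only [e0]
  rw [vt1, vt2, abs_of_pos p1, abs_of_pos p2, abs_of_nonneg p3, abs_of_nonneg p4]
  linear_combination ((Real.pi / Real.sqrt (t0 Δ) : ℝ) : ℂ) * Q' +
    2 * ((Real.pi / Real.sqrt (t0 Δ) : ℝ) : ℂ) * U

/-- The exponent at a place `t ≠ t0` where `a1, a2` have the same sign. -/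
theorem e2_gram (Δ β a1 a2 a3 a4 A B C D : F) (t : F →+* ℝ)
    (h3 : a1 * A ^ 2 + a2 * C ^ 2 = a3)
    (h4 : a1 * B ^ 2 + a2 * D ^ 2 = a4) (h0 : a1 * A * B + a2 * C * D = 0)
    (hp : 0 < t a1 * t a2) (r r' : ℝ) (p : (Fin 3 → F) × (Fin 3 → F)) :
    e2 Δ β a1 a2 t r (sub2 A B C D p) = e2 Δ β a3 a4 t r' p := by
  have H3 := mapsq t h3
  have H4 := mapsq t h4
  have H0 := map0 t h0
  have Q := qf_gram (t β) _ _ _ _ _ _ _ _ H3 H4 H0 (vt t p.1) (vt t p.2)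
  have key : |t a1| * qf (t β) (vt t (sub2 A B C D p).1) +
      |t a2| * qf (t β) (vt t (sub2 A B C D p).2) =
      |t a3| * qf (t β) (vt t p.1) + |t a4| * qf (t β) (vt t p.2) ∧ 0 ≤ t a3 * t a4 := by
    rw [vt1, vt2]
    rcases pos_and_pos_or_neg_and_neg_of_mul_pos hp with ⟨p1, p2⟩ | ⟨p1, p2⟩
    · have p3 : 0 ≤ t a3 := by rw [← H3]; positivity
      have p4 : 0 ≤ t a4 := by rw [← H4]; positivity
      rw [abs_of_pos p1, abs_of_pos p2, abs_of_nonneg p3, abs_of_nonneg p4]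
      exact ⟨Q, mul_nonneg p3 p4⟩
    · have p3 : t a3 ≤ 0 := by
        rw [← H3]; nlinarith [sq_nonneg (t A), sq_nonneg (t C)]
      have p4 : t a4 ≤ 0 := by
        rw [← H4]; nlinarith [sq_nonneg (t B), sq_nonneg (t D)]
      rw [abs_of_neg p1, abs_of_neg p2, abs_of_nonpos p3, abs_of_nonpos p4]
      exact ⟨by linear_combination - Q, mul_nonneg_of_nonpos_of_nonpos p3 p4⟩
  simp only [e2]
  rw [if_neg (not_lt.mpr hp.le), if_neg (not_lt.mpr key.2), key.1]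

/-- THE SUBSTITUTION LEMMA, one term. -/
theorem KKt_gram (Δ β : F) (t0 : F →+* ℝ) (a1 a2 a3 a4 A B C D : F)
    (h3 : a1 * A ^ 2 + a2 * C ^ 2 = a3)
    (h4 : a1 * B ^ 2 + a2 * D ^ 2 = a4) (h0 : a1 * A * B + a2 * C * D = 0)
    (p1 : 0 < t0 a1) (p2 : 0 < t0 a2) (ha1 : a1 ≠ 0) (ha2 : a2 ≠ 0)
    (r r' : (F →+* ℝ) → ℝ)
    (hr : ∀ t : F →+* ℝ, t a1 * t a2 < 0 → ∀ p,
      e2 Δ β a1 a2 t (r t) (sub2 A B C D p) = e2 Δ β a3 a4 t (r' t) p)
    (z : ℂ × ℂ) (p : (Fin 3 → F) × (Fin 3 → F)) :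
    KKt Δ β t0 a1 a2 z r (sub2 A B C D p) =
      (t0 (A * D - B * C) : ℂ) * KKt Δ β t0 a3 a4 z r' p := by
  classical
  have E : ∀ t : F →+* ℝ, e2 Δ β a1 a2 t (r t) (sub2 A B C D p) = e2 Δ β a3 a4 t (r' t) p := by
    intro t
    rcases lt_or_ge (t a1 * t a2) 0 with h | h
    · exact hr t h p
    · refine e2_gram Δ β a1 a2 a3 a4 A B C D t h3 h4 h0 (lt_of_le_of_ne h ?_) _ _ p
      exact (mul_ne_zero ((map_ne_zero t).mpr ha1) ((map_ne_zero t).mpr ha2)).symm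
  simp only [KKt]
  rw [Finset.sum_congr rfl (fun t _ => E t), e0_gram Δ β a1 a2 a3 a4 A B C D t0 h3 h4 h0 p1 p2 z p,
    vt1, vt2, du_lin, du_lin, wedge_lin]
  simp only [map_sub, map_mul]
  push_cast
  ring

/-- THE SUBSTITUTION LEMMA. -/
theorem KK_gram (Δ β : F) (t0 : F →+* ℝ) (a1 a2 a3 a4 A B C D : F)
    (h3 : a1 * A ^ 2 + a2 * C ^ 2 = a3)
    (h4 : a1 * B ^ 2 + a2 * D ^ 2 = a4) (h0 : a1 * A * B + a2 * C * D = 0)
    (hd : A * D - B * C ≠ 0)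
    (p1 : 0 < t0 a1) (p2 : 0 < t0 a2) (ha1 : a1 ≠ 0) (ha2 : a2 ≠ 0)
    (r r' : (F →+* ℝ) → ℝ)
    (hr : ∀ t : F →+* ℝ, t a1 * t a2 < 0 → ∀ p,
      e2 Δ β a1 a2 t (r t) (sub2 A B C D p) = e2 Δ β a3 a4 t (r' t) p)
    (z : ℂ × ℂ) (ψ : (Fin 3 → F) × (Fin 3 → F) → ℂ) :
    KK Δ β t0 a1 a2 ψ z r =
      (t0 (A * D - B * C) : ℂ) * KK Δ β t0 a3 a4 (ψ ∘ sub2 A B C D) z r' := by
  simp only [KK]
  rw [← tsum_mul_left, ← (sub2E A B C D hd).tsum_eq]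
  refine tsum_congr (fun p => ?_)
  show ψ (sub2 A B C D p) * KKt Δ β t0 a1 a2 z r (sub2 A B C D p) = _
  rw [KKt_gram Δ β t0 a1 a2 a3 a4 A B C D h3 h4 h0 p1 p2 ha1 ha2 r r' hr z p]
  simp only [Function.comp]
  ring

end CMT
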