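import Pool.Agent.Lib.CMT.E.Sub
import Pool.Agent.Lib.CMT.H.Signs

/-!
PROJECT CMT, part E: the majorant of the decomposition `<a3> + <a4>`, `a3 = a1 X² + a2 Y²`,
`a4 = a1 a2 a3`.

* `Est a1 a2 X Y t`: the explicit majorant; `Est_cong`: `Pᵀ Est P = diag(|a3|, |a4|)`.
* `ker_star`: `ker a1 a2 (Est a1 a2 X Y) ψ z = t0(a3) * ker a3 a4 (E12 a3 a4) (ψ ∘ P) z`.
* `Est_isMaj`, `E12_isMaj`: these are majorants.
-/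

namespace CMT

open Finset Matrix

/-- The explicit majorant, real version. -/
noncomputable def EstR (a1 a2 X Y : ℝ) : Matrix (Fin 2) (Fin 2) ℝ :=
  !![(a1 ^ 2 * X ^ 2 + |a1 * a2| * Y ^ 2) / |a1 * X ^ 2 + a2 * Y ^ 2|,
      X * Y * (a1 * a2 - |a1 * a2|) / |a1 * X ^ 2 + a2 * Y ^ 2|;
    X * Y * (a1 * a2 - |a1 * a2|) / |a1 * X ^ 2 + a2 * Y ^ 2|,
      (a2 ^ 2 * Y ^ 2 + |a1 * a2| * X ^ 2) / |a1 * X ^ 2 + a2 * Y ^ 2|]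

theorem EstR_cong (a1 a2 X Y : ℝ) (h : a1 * X ^ 2 + a2 * Y ^ 2 ≠ 0) :
    (!![X, -(a2 * Y); Y, a1 * X] : Matrix (Fin 2) (Fin 2) ℝ).transpose * EstR a1 a2 X Y *
      !![X, -(a2 * Y); Y, a1 * X] =
      Matrix.diagonal ![|a1 * X ^ 2 + a2 * Y ^ 2|, |a1 * a2 * (a1 * X ^ 2 + a2 * Y ^ 2)|] := by
  have h1 : |a1 * X ^ 2 + a2 * Y ^ 2| ≠ 0 := abs_ne_zero.mpr h
  have h2 : |a1 * X ^ 2 + a2 * Y ^ 2| ^ 2 = (a1 * X ^ 2 + a2 * Y ^ 2) ^ 2 := sq_abs _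
  have h3 : |a1 * a2| ^ 2 = (a1 * a2) ^ 2 := sq_abs _
  have h4 : |a1 * a2 * (a1 * X ^ 2 + a2 * Y ^ 2)| = |a1 * a2| * |a1 * X ^ 2 + a2 * Y ^ 2| :=
    abs_mul _ _
  have hi : |a1 * X ^ 2 + a2 * Y ^ 2| = (|a1 * X ^ 2 + a2 * Y ^ 2|)⁻¹ *
      (a1 * X ^ 2 + a2 * Y ^ 2) ^ 2 := by
    rw [← h2]; field_simp
  rw [h4]
  simp only [EstR, div_eq_mul_inv]
  generalize hw : (|a1 * X ^ 2 + a2 * Y ^ 2|)⁻¹ = w at *
  generalize |a1 * X ^ 2 + a2 * Y ^ 2| = N at *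
  generalize |a1 * a2| = m at *
  rw [hi]
  ext i j
  fin_cases i <;> fin_cases j
  · simp [Matrix.mul_apply, Fin.sum_univ_two, Matrix.diagonal]
    ring
  · simp [Matrix.mul_apply, Fin.sum_univ_two, Matrix.diagonal]
    ring
  · simp [Matrix.mul_apply, Fin.sum_univ_two, Matrix.diagonal]
    ring
  · simp [Matrix.mul_apply, Fin.sum_univ_two, Matrix.diagonal]
    ring

private theorem diag2 (a b : ℝ) :
    (Matrix.diagonal ![a, b] : Matrix (Fin 2) (Fin 2) ℝ) = !![a, 0; 0, b] := by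
  ext i j
  fin_cases i <;> fin_cases j <;> simp [Matrix.diagonal]

theorem EstR_inv (a1 a2 X Y : ℝ) (h1 : a1 ≠ 0) (h2 : a2 ≠ 0)
    (h : a1 * X ^ 2 + a2 * Y ^ 2 ≠ 0) :
    EstR a1 a2 X Y * Matrix.diagonal ![a1⁻¹, a2⁻¹] * EstR a1 a2 X Y =
      Matrix.diagonal ![a1, a2] := by
  have hN : |a1 * X ^ 2 + a2 * Y ^ 2| ≠ 0 := abs_ne_zero.mpr h
  have hN2 : |a1 * X ^ 2 + a2 * Y ^ 2| ^ 2 = (a1 * X ^ 2 + a2 * Y ^ 2) ^ 2 := sq_abs _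
  have hm : |a1 * a2| ^ 2 = (a1 * a2) ^ 2 := sq_abs _
  have hw : (|a1 * X ^ 2 + a2 * Y ^ 2|)⁻¹ ^ 2 * (a1 * X ^ 2 + a2 * Y ^ 2) ^ 2 = 1 := by
    rw [← hN2]; field_simp
  have i1 : a1 * a1⁻¹ = 1 := mul_inv_cancel₀ h1
  have i2 : a2 * a2⁻¹ = 1 := mul_inv_cancel₀ h2
  simp only [EstR, div_eq_mul_inv, diag2]
  generalize (|a1 * X ^ 2 + a2 * Y ^ 2|)⁻¹ = w at *
  generalize |a1 * a2| = m at *
  generalize a1⁻¹ = c at *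
  generalize a2⁻¹ = d at *
  rw [Matrix.mul_fin_two, Matrix.mul_fin_two]
  congr 1
  ext i j
  fin_cases i <;> fin_cases j
  · show ((a1 ^ 2 * X ^ 2 + m * Y ^ 2) * w * c + X * Y * (a1 * a2 - m) * w * 0) *
      ((a1 ^ 2 * X ^ 2 + m * Y ^ 2) * w) +
      ((a1 ^ 2 * X ^ 2 + m * Y ^ 2) * w * 0 + X * Y * (a1 * a2 - m) * w * d) *
      (X * Y * (a1 * a2 - m) * w) = a1
    linear_combination w ^ 2 * (a1 ^ 3 * X ^ 4 + 2 * m * a1 * X ^ 2 * Y ^ 2 +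
      a1 * a2 ^ 2 * Y ^ 4) * i1 + w ^ 2 * (2 * a1 ^ 2 * a2 - 2 * m * a1) * X ^ 2 * Y ^ 2 * i2 +
      w ^ 2 * (c * Y ^ 4 + d * X ^ 2 * Y ^ 2) * hm + a1 * hw
  · show ((a1 ^ 2 * X ^ 2 + m * Y ^ 2) * w * c + X * Y * (a1 * a2 - m) * w * 0) *
      (X * Y * (a1 * a2 - m) * w) +
      ((a1 ^ 2 * X ^ 2 + m * Y ^ 2) * w * 0 + X * Y * (a1 * a2 - m) * w * d) *
      ((a2 ^ 2 * Y ^ 2 + m * X ^ 2) * w) = 0
    linear_combination w ^ 2 * X * Y * ((X ^ 2 * (a1 ^ 2 * a2 - m * a1) +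
      Y ^ 2 * (a2 * m - a1 * a2 ^ 2)) * i1 + (X ^ 2 * (a1 * m - a1 ^ 2 * a2) +
      Y ^ 2 * (a1 * a2 ^ 2 - m * a2)) * i2 + (-(d * X ^ 2) - c * Y ^ 2) * hm)
  · show (X * Y * (a1 * a2 - m) * w * c + (a2 ^ 2 * Y ^ 2 + m * X ^ 2) * w * 0) *
      ((a1 ^ 2 * X ^ 2 + m * Y ^ 2) * w) +
      (X * Y * (a1 * a2 - m) * w * 0 + (a2 ^ 2 * Y ^ 2 + m * X ^ 2) * w * d) *
      (X * Y * (a1 * a2 - m) * w) = 0
    linear_combination w ^ 2 * X * Y * ((X ^ 2 * (a1 ^ 2 * a2 - m * a1) +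
      Y ^ 2 * (a2 * m - a1 * a2 ^ 2)) * i1 + (X ^ 2 * (a1 * m - a1 ^ 2 * a2) +
      Y ^ 2 * (a1 * a2 ^ 2 - m * a2)) * i2 + (-(d * X ^ 2) - c * Y ^ 2) * hm)
  · show (X * Y * (a1 * a2 - m) * w * c + (a2 ^ 2 * Y ^ 2 + m * X ^ 2) * w * 0) *
      (X * Y * (a1 * a2 - m) * w) +
      (X * Y * (a1 * a2 - m) * w * 0 + (a2 ^ 2 * Y ^ 2 + m * X ^ 2) * w * d) *
      ((a2 ^ 2 * Y ^ 2 + m * X ^ 2) * w) = a2
    linear_combination w ^ 2 * (a2 ^ 3 * Y ^ 4 + 2 * m * a2 * X ^ 2 * Y ^ 2 +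
      a2 * a1 ^ 2 * X ^ 4) * i2 + w ^ 2 * (2 * a2 ^ 2 * a1 - 2 * m * a2) * X ^ 2 * Y ^ 2 * i1 +
      w ^ 2 * (d * X ^ 4 + c * X ^ 2 * Y ^ 2) * hm + a2 * hw

theorem EstR_posDef (a1 a2 X Y : ℝ) (h1 : a1 ≠ 0) (h2 : a2 ≠ 0)
    (h : a1 * X ^ 2 + a2 * Y ^ 2 ≠ 0) : (EstR a1 a2 X Y).PosDef := by
  have hU : IsUnit (!![X, -(a2 * Y); Y, a1 * X] : Matrix (Fin 2) (Fin 2) ℝ) := by
    rw [Matrix.isUnit_iff_isUnit_det, Matrix.det_fin_two_of, isUnit_iff_ne_zero]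
    have : X * (a1 * X) - -(a2 * Y) * Y = a1 * X ^ 2 + a2 * Y ^ 2 := by ring
    rw [this]; exact h
  rw [← hU.posDef_star_left_conjugate_iff, Matrix.star_eq_conjTranspose,
    Matrix.conjTranspose_eq_transpose_of_trivial, EstR_cong a1 a2 X Y h,
    Matrix.posDef_diagonal_iff]
  intro i
  fin_cases i
  · exact abs_pos.mpr h
  · exact abs_pos.mpr (mul_ne_zero (mul_ne_zero h1 h2) h)

variable {F : Type} [Field F] [NumberField F]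

/-- The majorant of the decomposition `<a3> + <a4>`. -/
noncomputable def Est (a1 a2 X Y : F) (t : F →+* ℝ) : Matrix (Fin 2) (Fin 2) ℝ :=
  EstR (t a1) (t a2) (t X) (t Y)

private theorem PP_map (a1 a2 X Y : F) (t : F →+* ℝ) :
    (PP a1 a2 X Y).map t = !![t X, -(t a2 * t Y); t Y, t a1 * t X] := by
  ext i j
  fin_cases i <;> fin_cases j <;> simp [PP]

private theorem ne_map (a1 a2 X Y : F) (t : F →+* ℝ) (h3 : a1 * X ^ 2 + a2 * Y ^ 2 ≠ 0) :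
    t a1 * t X ^ 2 + t a2 * t Y ^ 2 ≠ 0 := by
  have := (map_ne_zero t).mpr h3
  simpa using this

theorem Est_cong (a1 a2 X Y : F) (t : F →+* ℝ) (h3 : a1 * X ^ 2 + a2 * Y ^ 2 ≠ 0) :
    ((PP a1 a2 X Y).map t).transpose * Est a1 a2 X Y t * (PP a1 a2 X Y).map t =
      E12 (a1 * X ^ 2 + a2 * Y ^ 2) (a1 * a2 * (a1 * X ^ 2 + a2 * Y ^ 2)) t := by
  rw [PP_map, Est, EstR_cong _ _ _ _ (ne_map a1 a2 X Y t h3)]
  simp only [E12, map_add, map_mul, map_pow]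

omit [NumberField F] in
theorem PP_Gram (a1 a2 X Y : F) : Gram (PP a1 a2 X Y) a1 a2 (a1 * X ^ 2 + a2 * Y ^ 2)
    (a1 * a2 * (a1 * X ^ 2 + a2 * Y ^ 2)) := by
  refine ⟨?_, ?_, ?_⟩ <;> simp [PP] <;> ring

/-- The kernel at the majorant of the decomposition `<a3> + <a4>`. -/
theorem ker_star (D : Dat F) (a1 a2 X Y : F) (h3 : a1 * X ^ 2 + a2 * Y ^ 2 ≠ 0)
    (p1 : 0 < D.t0 a1) (p2 : 0 < D.t0 a2) (ψ : (Fin 3 → F) × (Fin 3 → F) → ℂ) (z : ℂ × ℂ) :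
    ker D a1 a2 (Est a1 a2 X Y) ψ z = (D.t0 (a1 * X ^ 2 + a2 * Y ^ 2) : ℂ) *
      ker D (a1 * X ^ 2 + a2 * Y ^ 2) (a1 * a2 * (a1 * X ^ 2 + a2 * Y ^ 2))
        (E12 (a1 * X ^ 2 + a2 * Y ^ 2) (a1 * a2 * (a1 * X ^ 2 + a2 * Y ^ 2)))
        (ψ ∘ sb (PP a1 a2 X Y)) z := by
  have hd : (PP a1 a2 X Y).det = a1 * X ^ 2 + a2 * Y ^ 2 := PP_det a1 a2 X Y
  rw [ker_sub D (PP a1 a2 X Y) (by rw [hd]; exact h3) (PP_Gram a1 a2 X Y) p1 p2, hd]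
  congr 2
  funext t
  exact Est_cong a1 a2 X Y t h3

theorem Est_isMaj (a1 a2 X Y : F) (h1 : a1 ≠ 0) (h2 : a2 ≠ 0)
    (h3 : a1 * X ^ 2 + a2 * Y ^ 2 ≠ 0) (t : F →+* ℝ) :
    IsMaj (t a1) (t a2) (Est a1 a2 X Y t) :=
  ⟨EstR_posDef _ _ _ _ ((map_ne_zero t).mpr h1) ((map_ne_zero t).mpr h2)
    (ne_map a1 a2 X Y t h3),
   EstR_inv _ _ _ _ ((map_ne_zero t).mpr h1) ((map_ne_zero t).mpr h2) (ne_map a1 a2 X Y t h3)⟩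

omit [NumberField F] in
theorem E12_isMaj (a1 a2 : F) (h1 : a1 ≠ 0) (h2 : a2 ≠ 0) (t : F →+* ℝ) :
    IsMaj (t a1) (t a2) (E12 a1 a2 t) := by
  have k1 := (map_ne_zero t).mpr h1
  have k2 := (map_ne_zero t).mpr h2
  refine ⟨?_, ?_⟩
  · rw [E12, Matrix.posDef_diagonal_iff]
    intro i
    fin_cases i
    · exact abs_pos.mpr k1
    · exact abs_pos.mpr k2
  · rw [E12, Matrix.diagonal_mul_diagonal, Matrix.diagonal_mul_diagonal]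
    congr 1
    funext i
    fin_cases i
    · show |t a1| * (t a1)⁻¹ * |t a1| = t a1
      have : |t a1| ^ 2 = t a1 ^ 2 := sq_abs _
      field_simp
      exact this
    · show |t a2| * (t a2)⁻¹ * |t a2| = t a2
      have : |t a2| ^ 2 = t a2 ^ 2 := sq_abs _
      field_simp
      exact this

end CMT
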