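import Pool.Agent.Lib.CMT.Defs

/-!
PROJECT CMT, part E: the kernel of a (finite sum of) product(s) at the base point `E12` is the
(sum of the) product(s) of the theta 1-forms.
-/

namespace CMT

open Finset

variable {F : Type} [Field F] [NumberField F]

/-- Summability of the two coefficients of the theta form (proved in part C). -/
def OmS (D : Dat F) (a : F) (φ : (Fin 3 → F) → ℂ) (z : ℂ × ℂ) : Prop :=
  Summable (fun x : Fin 3 → F => φ x * tm1 D a x z * (du (D.t0 D.bet) (rx D.t0 x) z).1) ∧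
  Summable (fun x : Fin 3 → F => φ x * tm1 D a x z * (du (D.t0 D.bet) (rx D.t0 x) z).2)

/-- At the base point the term of the kernel is the product of the terms. -/
theorem tm2_E12 (D : Dat F) (a1 a2 : F) (x y : Fin 3 → F) (z : ℂ × ℂ) :
    tm2 D a1 a2 (E12 a1 a2) x y z = tm1 D a1 x z * tm1 D a2 y z := by
  have h : e2 D (E12 a1 a2) x y = e1 D a1 x + e1 D a2 y := by
    simp only [e2, e1]
    rw [← Finset.sum_add_distrib]
    refine Finset.sum_congr rfl (fun t _ => ?_)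
    have h00 : E12 a1 a2 t 0 0 = |t a1| := by simp [E12]
    have h11 : E12 a1 a2 t 1 1 = |t a2| := by simp [E12]
    have h01 : E12 a1 a2 t 0 1 = 0 := by simp [E12]
    have h10 : E12 a1 a2 t 1 0 = 0 := by simp [E12]
    rw [h00, h11, h01, h10]
    ring
  rw [tm2, tm1, tm1, h, ← Complex.exp_add]
  congr 1
  push_cast
  ring

theorem ker_hasSum (D : Dat F) (a1 a2 : F) (φ φ' : (Fin 3 → F) → ℂ) (z : ℂ × ℂ)
    (h : OmS D a1 φ z) (h' : OmS D a2 φ' z) :
    HasSum (fun p : (Fin 3 → F) × (Fin 3 → F) => φ p.1 * φ' p.2 *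
        tm2 D a1 a2 (E12 a1 a2) p.1 p.2 z *
        wedge (du (D.t0 D.bet) (rx D.t0 p.1) z) (du (D.t0 D.bet) (rx D.t0 p.2) z))
      (wedge (om D a1 φ z) (om D a2 φ' z)) := by
  have s1 := summable_mul_of_summable_norm h.1.norm h'.2.norm
  have s2 := summable_mul_of_summable_norm h.2.norm h'.1.norm
  have t1 := tsum_mul_tsum_of_summable_norm h.1.norm h'.2.norm
  have t2 := tsum_mul_tsum_of_summable_norm h.2.norm h'.1.norm
  have H := s1.hasSum.sub s2.hasSum
  rw [← t1, ← t2] at H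
  have e : (fun p : (Fin 3 → F) × (Fin 3 → F) => φ p.1 * φ' p.2 *
        tm2 D a1 a2 (E12 a1 a2) p.1 p.2 z *
        wedge (du (D.t0 D.bet) (rx D.t0 p.1) z) (du (D.t0 D.bet) (rx D.t0 p.2) z)) =
      fun p => φ p.1 * tm1 D a1 p.1 z * (du (D.t0 D.bet) (rx D.t0 p.1) z).1 *
          (φ' p.2 * tm1 D a2 p.2 z * (du (D.t0 D.bet) (rx D.t0 p.2) z).2) -
        φ p.1 * tm1 D a1 p.1 z * (du (D.t0 D.bet) (rx D.t0 p.1) z).2 *
          (φ' p.2 * tm1 D a2 p.2 z * (du (D.t0 D.bet) (rx D.t0 p.2) z).1) := by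
    funext p
    rw [tm2_E12]
    simp only [wedge]
    ring
  rw [e]
  exact H

/-- (E1) The kernel of a product at the base point. -/
theorem ker_prod (D : Dat F) (a1 a2 : F) (φ φ' : (Fin 3 → F) → ℂ) (z : ℂ × ℂ)
    (h : OmS D a1 φ z) (h' : OmS D a2 φ' z) :
    ker D a1 a2 (E12 a1 a2) (fun p => φ p.1 * φ' p.2) z =
      wedge (om D a1 φ z) (om D a2 φ' z) :=
  (ker_hasSum D a1 a2 φ φ' z h h').tsum_eq

/-- (E1) The kernel of a finite sum of products at the base point. -/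
theorem ker_sum {J : Type*} [Fintype J] (D : Dat F) (a1 a2 : F)
    (φ φ' : J → (Fin 3 → F) → ℂ) (z : ℂ × ℂ) (h : ∀ j, OmS D a1 (φ j) z)
    (h' : ∀ j, OmS D a2 (φ' j) z) (ψ : (Fin 3 → F) × (Fin 3 → F) → ℂ)
    (hψ : ∀ p, ψ p = ∑ j, φ j p.1 * φ' j p.2) :
    ker D a1 a2 (E12 a1 a2) ψ z = ∑ j, wedge (om D a1 (φ j) z) (om D a2 (φ' j) z) := by
  have H := hasSum_sum (s := Finset.univ)
    (fun j _ => ker_hasSum D a1 a2 (φ j) (φ' j) z (h j) (h' j))
  rw [ker, ← H.tsum_eq]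
  refine tsum_congr (fun p => ?_)
  rw [hψ, Finset.sum_mul, Finset.sum_mul]

end CMT
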