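import Pool.Agent.Lib.CMT.Iface
import Pool.Agent.Lib.CMT.E.Maj
import Pool.Agent.Lib.CMT.E.Prd

/-!
PROJECT CMT, part E: the interfaces `S_Star`, `S_Split` (from `S_SumOm`) and `S_Maj`.
-/

namespace CMT

variable {F : Type} [Field F] [NumberField F]

omit [NumberField F] in
theorem EXY_eq (a1 a2 X Y : F) : EXY a1 a2 X Y = Est a1 a2 X Y := by
  funext t
  ext i j
  fin_cases i <;> fin_cases j <;> simp [EXY, Est, EstR, a3] <;> ring

omit [NumberField F] in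
theorem subP_eq (a1 a2 X Y : F) (p : (Fin 3 → F) × (Fin 3 → F)) :
    subP a1 a2 X Y p = sb (PP a1 a2 X Y) p := by
  ext i
  · simp [subP, sb, PP]; ring
  · simp [subP, sb, PP]

/-- `S_Maj`: `EXY` and `E12` are majorants. -/
theorem thMaj : S_Maj := by
  intro F _ _ a1 a2 X Y h1 h2
  refine ⟨fun t => E12_isMaj a1 a2 h1 h2 t, fun h3 t => ?_⟩
  rw [EXY_eq]
  exact Est_isMaj a1 a2 X Y h1 h2 h3 t

/-- `S_Star`: the kernel at the majorant `EXY`. -/
theorem thStar : S_Star := by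
  intro F _ _ D a1 a2 X Y p1 p2 h3 ψ z
  have h := ker_star D a1 a2 X Y h3 p1 p2 ψ z
  rw [EXY_eq, h]
  have : (ψ ∘ sb (PP a1 a2 X Y)) = fun p => ψ (subP a1 a2 X Y p) := by
    funext p
    rw [subP_eq]
    rfl
  rw [this]
  rfl

/-- `S_Split`: the kernel of a product at the base point. -/
theorem thSplit (hC : S_SumOm) : S_Split := by
  intro F _ _ _ D a1 a2 p1 p2 φ1 φ2 h1 h2 z hz
  have ha1 : a1 ≠ 0 := fun h => by simp [h] at p1
  have ha2 : a2 ≠ 0 := fun h => by simp [h] at p2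
  have s1 := hC F D a1 ha1 φ1 h1 z hz
  have s2 := hC F D a2 ha2 φ2 h2 z hz
  exact ker_prod D a1 a2 φ1 φ2 z ⟨s1.1.of_norm, s1.2.of_norm⟩ ⟨s2.1.of_norm, s2.2.of_norm⟩

end CMT
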