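import Pool.Agent.Lib.CMT.E.Trans

/-!
PROJECT CMT, part E: at `r = 0` the kernel of a finite sum of products is the sum of the
products of the theta forms.
-/

namespace CMT

open Finset

variable {F : Type*} [Field F] [NumberField F]

/-- Summability of the two coefficients of the theta form (part C). -/
def OmS (Δ β : F) (t0 : F →+* ℝ) (a : F) (φ : (Fin 3 → F) → ℂ) (z : ℂ × ℂ) : Prop :=
  Summable (fun x => φ x * (omt Δ β t0 a z x).1) ∧ Summable (fun x => φ x * (omt Δ β t0 a z x).2)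

theorem KKt_zero (Δ β : F) (t0 : F →+* ℝ) (a1 a2 : F) (z : ℂ × ℂ)
    (p : (Fin 3 → F) × (Fin 3 → F)) :
    KKt Δ β t0 a1 a2 z 0 p = wedge (omt Δ β t0 a1 z p.1) (omt Δ β t0 a2 z p.2) := by
  classical
  simp only [KKt, omt, Pi.zero_apply, e2_zero, Finset.sum_add_distrib]
  have : ∀ (c d : ℂ) (u v : ℂ × ℂ), wedge (c • u) (d • v) = c * d * wedge u v := by
    intro c d u v
    simp only [wedge, Prod.smul_fst, Prod.smul_snd, smul_eq_mul]
    ring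
  rw [this, ← Complex.exp_add]
  congr 2
  push_cast
  ring

theorem wedge_hasSum (Δ β : F) (t0 : F →+* ℝ) (a1 a2 : F) (z : ℂ × ℂ)
    (φ φ' : (Fin 3 → F) → ℂ) (h : OmS Δ β t0 a1 φ z) (h' : OmS Δ β t0 a2 φ' z) :
    HasSum (fun p : (Fin 3 → F) × (Fin 3 → F) => φ p.1 * φ' p.2 * KKt Δ β t0 a1 a2 z 0 p)
      (wedge (om Δ β t0 a1 φ z) (om Δ β t0 a2 φ' z)) := by
  have s1 := summable_mul_of_summable_norm h.1.norm h'.2.norm
  have s2 := summable_mul_of_summable_norm h.2.norm h'.1.norm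
  have t1 := tsum_mul_tsum_of_summable_norm h.1.norm h'.2.norm
  have t2 := tsum_mul_tsum_of_summable_norm h.2.norm h'.1.norm
  have H := s1.hasSum.sub s2.hasSum
  rw [← t1, ← t2] at H
  have e : (fun p : (Fin 3 → F) × (Fin 3 → F) => φ p.1 * φ' p.2 * KKt Δ β t0 a1 a2 z 0 p) =
      fun b => φ b.1 * (omt Δ β t0 a1 z b.1).1 * (φ' b.2 * (omt Δ β t0 a2 z b.2).2) -
        φ b.1 * (omt Δ β t0 a1 z b.1).2 * (φ' b.2 * (omt Δ β t0 a2 z b.2).1) := by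
    funext p
    rw [KKt_zero]
    simp only [wedge]
    ring
  rw [e]
  exact H

/-- (E1) The kernel of a product at `r = 0`. -/
theorem KK_prod (Δ β : F) (t0 : F →+* ℝ) (a1 a2 : F) (z : ℂ × ℂ)
    (φ φ' : (Fin 3 → F) → ℂ) (h : OmS Δ β t0 a1 φ z) (h' : OmS Δ β t0 a2 φ' z) :
    KK Δ β t0 a1 a2 (fun p => φ p.1 * φ' p.2) z 0 =
      wedge (om Δ β t0 a1 φ z) (om Δ β t0 a2 φ' z) :=
  (wedge_hasSum Δ β t0 a1 a2 z φ φ' h h').tsum_eq

/-- (E1) The kernel of a finite sum of products at `r = 0`. -/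
theorem KK_sum {J : Type*} [Fintype J] (Δ β : F) (t0 : F →+* ℝ) (a1 a2 : F) (z : ℂ × ℂ)
    (φ φ' : J → (Fin 3 → F) → ℂ) (h : ∀ j, OmS Δ β t0 a1 (φ j) z)
    (h' : ∀ j, OmS Δ β t0 a2 (φ' j) z) (ψ : (Fin 3 → F) × (Fin 3 → F) → ℂ)
    (hψ : ∀ p, ψ p = ∑ j, φ j p.1 * φ' j p.2) :
    KK Δ β t0 a1 a2 ψ z 0 = ∑ j, wedge (om Δ β t0 a1 (φ j) z) (om Δ β t0 a2 (φ' j) z) := by
  have H := hasSum_sum (s := Finset.univ)
    (fun j _ => wedge_hasSum Δ β t0 a1 a2 z (φ j) (φ' j) (h j) (h' j))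
  rw [KK, ← H.tsum_eq]
  refine tsum_congr (fun p => ?_)
  rw [hψ, Finset.sum_mul]

end CMT
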