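import Mathlib
import Pool.Agent.Lib.CMT.E.Defs

/-!
PROJECT CMT, part E, (E5): Schwartz-Bruhat functions of two vectors.
-/

namespace CMT

open Finset

noncomputable section

variable {F : Type*} [Field F] [NumberField F] {ι : Type*}

/-- a common denominator -/
theorem exists_nat_mul_integral (s : Finset F) :
    ∃ M : ℕ, 0 < M ∧ ∀ x ∈ s, IsIntegral ℤ ((M : F) * x) := by
  classical
  induction s using Finset.induction_on with
  | empty => exact ⟨1, one_pos, by simp⟩
  | insert a s _ ih =>
    obtain ⟨M, hM, h⟩ := ih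
    have halg : IsAlgebraic ℤ a := by
      have : IsAlgebraic ℚ a := Algebra.IsAlgebraic.isAlgebraic a
      exact (IsFractionRing.isAlgebraic_iff ℤ ℚ F).mpr this
    obtain ⟨y, hy0, hy⟩ := halg.exists_integral_multiple
    refine ⟨y.natAbs * M, Nat.mul_pos (Int.natAbs_pos.mpr hy0) hM, ?_⟩
    have hc : (y.natAbs : F) = ((y.natAbs : ℤ) : F) := (Int.cast_natCast _).symm
    have hya : IsIntegral ℤ ((y.natAbs : F) * a) := by
      rw [hc]
      rcases Int.natAbs_eq y with h1 | h1
      · rw [← h1, ← zsmul_eq_mul]; exact hy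
      · have h2 : ((y.natAbs : ℤ)) = -y := by omega
        rw [h2, Int.cast_neg, neg_mul, ← zsmul_eq_mul]; exact hy.neg
    intro x hx
    rw [Finset.mem_insert] at hx
    rcases hx with rfl | hx
    · have : (((y.natAbs * M : ℕ) : F) * x) = (M : F) * ((y.natAbs : F) * x) := by
        push_cast; ring
      rw [this]
      exact (isIntegral_algebraMap (R := ℤ) (A := F) (x := (M : ℤ))|>.mul hya |> fun h => by simpa using h)
    · have : (((y.natAbs * M : ℕ) : F) * x) = (y.natAbs : F) * ((M : F) * x) := by
        push_cast; ring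
      rw [this]
      exact (isIntegral_algebraMap (R := ℤ) (A := F) (x := (y.natAbs : ℤ))|>.mul (h x hx) |> fun h => by simpa using h)

omit [NumberField F] in
/-- multiplication by a natural number preserves integrality -/
theorem isIntegral_natCast_mul (n : ℕ) {x : F} (hx : IsIntegral ℤ x) :
    IsIntegral ℤ ((n : F) * x) := by
  have h : IsIntegral ℤ ((n : F)) := by
    have := isIntegral_algebraMap (R := ℤ) (A := F) (x := (n : ℤ))
    simpa using this
  exact h.mul hx

/-- Schwartz-Bruhat functions of two vectors are stable under `GL_2(F)`. -/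
theorem IsSB2.comp_gl2 {ψ : (ι → F) × (ι → F) → ℂ} (h : IsSB2 ψ) (a b c d : F)
    (hdet : a * d - b * c ≠ 0) :
    IsSB2 (fun p : (ι → F) × (ι → F) =>
      ψ (fun i => a * p.1 i + b * p.2 i, fun i => c * p.1 i + d * p.2 i)) := by
  classical
  obtain ⟨N, hN, hs, hp⟩ := h
  set Δ := a * d - b * c with hΔ
  obtain ⟨M, hM, hint⟩ := exists_nat_mul_integral (F := F)
    {a, b, c, d, d / Δ, -b / Δ, -c / Δ, a / Δ}
  have h1 : ∀ x ∈ ({a, b, c, d, d / Δ, -b / Δ, -c / Δ, a / Δ} : Finset F),
      ∀ y : F, IsIntegral ℤ ((N : F) * y) → IsIntegral ℤ (((N * M : ℕ) : F) * (x * y)) := by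
    intro x hx y hy
    have : (((N * M : ℕ) : F) * (x * y)) = ((M : F) * x) * ((N : F) * y) := by
      push_cast; ring
    rw [this]
    exact (hint x hx).mul hy
  refine ⟨N * M, Nat.mul_pos hN hM, ?_, ?_⟩
  · intro p hψ
    obtain ⟨hx, hy⟩ := hs _ hψ
    simp only at hx hy
    constructor
    · intro i
      have e1 : ((N * M : ℕ) : F) * p.1 i =
          ((N * M : ℕ) : F) * (d / Δ * (a * p.1 i + b * p.2 i)) +
          ((N * M : ℕ) : F) * (-b / Δ * (c * p.1 i + d * p.2 i)) := by
        rw [← mul_add]
        congr 1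
        field_simp
        rw [hΔ]; ring
      rw [e1]
      exact (h1 _ (by simp) _ (hx i)).add (h1 _ (by simp) _ (hy i))
    · intro i
      have e1 : ((N * M : ℕ) : F) * p.2 i =
          ((N * M : ℕ) : F) * (-c / Δ * (a * p.1 i + b * p.2 i)) +
          ((N * M : ℕ) : F) * (a / Δ * (c * p.1 i + d * p.2 i)) := by
        rw [← mul_add]
        congr 1
        field_simp
        rw [hΔ]; ring
      rw [e1]
      exact (h1 _ (by simp) _ (hx i)).add (h1 _ (by simp) _ (hy i))
  · intro p y hy1 hy2
    have key := hp (fun i => a * p.1 i + b * p.2 i, fun i => c * p.1 i + d * p.2 i)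
      (fun i => (M : F) * a * y.1 i + (M : F) * b * y.2 i,
        fun i => (M : F) * c * y.1 i + (M : F) * d * y.2 i)
      (fun i => ((hint a (by simp)).mul (hy1 i)).add ((hint b (by simp)).mul (hy2 i)))
      (fun i => ((hint c (by simp)).mul (hy1 i)).add ((hint d (by simp)).mul (hy2 i)))
    simp only at key ⊢
    rw [← key]
    congr 1
    ext i
    · push_cast; ring
    · push_cast; ring

omit [NumberField F] in
/-- the product of two Schwartz-Bruhat functions -/
theorem IsSB.prod {φ φ' : (ι → F) → ℂ} (h : IsSB φ) (h' : IsSB φ') :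
    IsSB2 (fun p : (ι → F) × (ι → F) => φ p.1 * φ' p.2) := by
  obtain ⟨N, hN, hs, hp⟩ := h
  obtain ⟨N', hN', hs', hp'⟩ := h'
  refine ⟨N * N', Nat.mul_pos hN hN', ?_, ?_⟩
  · intro p hψ
    have h1 : φ p.1 ≠ 0 := fun h0 => hψ (by simp [h0])
    have h2 : φ' p.2 ≠ 0 := fun h0 => hψ (by simp [h0])
    constructor
    · intro i
      have : ((N * N' : ℕ) : F) * p.1 i = (N' : F) * ((N : F) * p.1 i) := by push_cast; ring
      rw [this]; exact isIntegral_natCast_mul _ (hs _ h1 i)
    · intro i
      have : ((N * N' : ℕ) : F) * p.2 i = (N : F) * ((N' : F) * p.2 i) := by push_cast; ring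
      rw [this]; exact isIntegral_natCast_mul _ (hs' _ h2 i)
  · intro p y hy1 hy2
    have k1 := hp p.1 (fun i => (N' : F) * y.1 i) (fun i => isIntegral_natCast_mul _ (hy1 i))
    have k2 := hp' p.2 (fun i => (N : F) * y.2 i) (fun i => isIntegral_natCast_mul _ (hy2 i))
    have e1 : (fun i => p.1 i + ((N * N' : ℕ) : F) * y.1 i) =
        fun i => p.1 i + (N : F) * ((N' : F) * y.1 i) := by
      funext i; push_cast; ring
    have e2 : (fun i => p.2 i + ((N * N' : ℕ) : F) * y.2 i) =
        fun i => p.2 i + (N' : F) * ((N : F) * y.2 i) := by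
      funext i; push_cast; ring
    simp only [e1, e2, k1, k2]

/-- `(1/N) O / N O` is finite: there is a finite set of representatives of the cosets. -/
theorem exists_reps [Finite ι] (N : ℕ) (hN : 0 < N) :
    ∃ (k : ℕ) (b : Fin k → ι → F) (c : (ι → F) → Option (Fin k)),
      (∀ j i, IsIntegral ℤ ((N : F) * b j i)) ∧
      (∀ x, (∀ i, IsIntegral ℤ ((N : F) * x i)) → ∃ j, c x = some j ∧
        ∃ y : ι → F, (∀ i, IsIntegral ℤ (y i)) ∧ x = fun i => b j i + (N : F) * y i) ∧
      (∀ x, (¬ ∀ i, IsIntegral ℤ ((N : F) * x i)) → c x = none) ∧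
      (∀ x y : ι → F, (∀ i, IsIntegral ℤ (y i)) → c (fun i => x i + (N : F) * y i) = c x) := by
  classical
  have : Fintype ι := Fintype.ofFinite ι
  let I : Ideal (NumberField.RingOfIntegers F) := Ideal.span {((N ^ 2 : ℕ) : NumberField.RingOfIntegers F)}
  have hI : I ≠ ⊥ := by
    intro h
    rw [Ideal.span_singleton_eq_bot] at h
    have : (N ^ 2 : ℕ) = 0 := by exact_mod_cast h
    exact absurd this (pow_pos hN 2).ne'
  have : Finite (NumberField.RingOfIntegers F ⧸ I) := Ideal.finiteQuotientOfFreeOfNeBot I hI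
  have : Fintype (NumberField.RingOfIntegers F ⧸ I) := Fintype.ofFinite _
  let J := ι → NumberField.RingOfIntegers F ⧸ I
  let e : J ≃ Fin (Fintype.card J) := Fintype.equivFin J
  have hNF : (N : F) ≠ 0 := by exact_mod_cast hN.ne'
  -- the class of a vector
  let cl : (x : ι → F) → (∀ i, IsIntegral ℤ ((N : F) * x i)) → J := fun x hx i =>
    Ideal.Quotient.mk I ⟨(N : F) * x i, hx i⟩
  refine ⟨Fintype.card J, fun j i => ((Quotient.out (e.symm j i) : NumberField.RingOfIntegers F) : F) / N,
    fun x => if hx : ∀ i, IsIntegral ℤ ((N : F) * x i) then some (e (cl x hx)) else none,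
    ?_, ?_, ?_, ?_⟩
  · intro j i
    rw [mul_div_cancel₀ _ hNF]
    exact (Quotient.out (e.symm j i) : NumberField.RingOfIntegers F).2
  · intro x hx
    refine ⟨e (cl x hx), dif_pos hx, ?_⟩
    have hmem : ∀ i, ∃ w : NumberField.RingOfIntegers F,
        (N : F) * x i - ((Quotient.out (cl x hx i) : NumberField.RingOfIntegers F) : F) =
          ((N ^ 2 : ℕ) : F) * (w : F) := by
      intro i
      have h1 : (Ideal.Quotient.mk I (Quotient.out (cl x hx i))) = cl x hx i := Quotient.out_eq _
      have h2 : Ideal.Quotient.mk I (⟨(N : F) * x i, hx i⟩ : NumberField.RingOfIntegers F) =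
          Ideal.Quotient.mk I (Quotient.out (cl x hx i)) := h1.symm
      rw [Ideal.Quotient.eq, Ideal.mem_span_singleton'] at h2
      obtain ⟨w, hw⟩ := h2
      refine ⟨w, ?_⟩
      have h3 := congrArg (algebraMap (NumberField.RingOfIntegers F) F) hw
      rw [map_mul, map_sub, map_natCast] at h3
      exact (h3.symm.trans (mul_comm _ _))
    choose w hw using hmem
    refine ⟨fun i => (w i : F), fun i => (w i).2, ?_⟩
    funext i
    show x i = ((Quotient.out (e.symm (e (cl x hx)) i) : NumberField.RingOfIntegers F) : F) / N +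
      (N : F) * (w i : F)
    rw [Equiv.symm_apply_apply]
    have := hw i
    field_simp
    push_cast at this
    linear_combination this
  · intro x hx
    exact dif_neg hx
  · intro x y hy
    have hiff : (∀ i, IsIntegral ℤ ((N : F) * (x i + (N : F) * y i))) ↔
        ∀ i, IsIntegral ℤ ((N : F) * x i) := by
      have h2 : ∀ i, IsIntegral ℤ ((N : F) * ((N : F) * y i)) := fun i =>
        isIntegral_natCast_mul _ (isIntegral_natCast_mul _ (hy i))
      constructor
      · intro h i
        have := (h i).sub (h2 i)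
        rwa [mul_add, add_sub_cancel_right] at this
      · intro h i
        rw [mul_add]; exact (h i).add (h2 i)
    by_cases hx : ∀ i, IsIntegral ℤ ((N : F) * x i)
    · have hx' := hiff.mpr hx
      show (if hx : ∀ i, IsIntegral ℤ ((N : F) * (x i + (N : F) * y i)) then
        some (e (cl (fun i => x i + (N : F) * y i) hx)) else none) =
        (if hx : ∀ i, IsIntegral ℤ ((N : F) * x i) then some (e (cl x hx)) else none)
      rw [dif_pos hx', dif_pos hx]
      congr 2
      funext i
      show Ideal.Quotient.mk I _ = Ideal.Quotient.mk I _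
      rw [Ideal.Quotient.eq, Ideal.mem_span_singleton']
      refine ⟨⟨y i, hy i⟩, ?_⟩
      apply NumberField.RingOfIntegers.coe_injective
      rw [map_mul, map_sub, map_natCast]
      show y i * ((N ^ 2 : ℕ) : F) = (N : F) * (x i + (N : F) * y i) - (N : F) * x i
      push_cast
      ring
    · have hx' : ¬ (∀ i, IsIntegral ℤ ((N : F) * (x i + (N : F) * y i))) := fun h => hx (hiff.mp h)
      show (if hx : ∀ i, IsIntegral ℤ ((N : F) * (x i + (N : F) * y i)) then
        some (e (cl (fun i => x i + (N : F) * y i) hx)) else none) =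
        (if hx : ∀ i, IsIntegral ℤ ((N : F) * x i) then some (e (cl x hx)) else none)
      rw [dif_neg hx', dif_neg hx]

/-- (E5): a Schwartz-Bruhat function of two vectors is a finite sum of products. -/
theorem IsSB2.exists_sum [Finite ι] {ψ : (ι → F) × (ι → F) → ℂ} (h : IsSB2 ψ) :
    ∃ (k : ℕ) (φ φ' : Fin k → (ι → F) → ℂ), (∀ j, IsSB (φ j)) ∧ (∀ j, IsSB (φ' j)) ∧
      ∀ x y, ψ (x, y) = ∑ j, φ j x * φ' j y := by
  classical
  obtain ⟨N, hN, hs, hp⟩ := h
  obtain ⟨k, b, c, hb, hc, hn, hper⟩ := exists_reps (F := F) (ι := ι) N hN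
  refine ⟨k, fun j x => ψ (x, b j), fun j y => if c y = some j then 1 else 0, ?_, ?_, ?_⟩
  · intro j
    refine ⟨N, hN, fun x hx => (hs _ hx).1, fun x y hy => ?_⟩
    have := hp (x, b j) (y, 0) hy (fun i => isIntegral_zero)
    simpa using this
  · intro j
    refine ⟨N, hN, fun x hx i => ?_, fun x y hy => ?_⟩
    · by_contra hcon
      have h1 : c x = none := hn x (fun h => hcon (h i))
      simp [h1] at hx
    · show (if c (fun i => x i + (N : F) * y i) = some j then (1 : ℂ) else 0) = _
      rw [hper x y hy]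
  · intro x y
    by_cases hy : ∀ i, IsIntegral ℤ ((N : F) * y i)
    · obtain ⟨j, hj, w, hw, hyw⟩ := hc y hy
      rw [Finset.sum_eq_single j]
      · show ψ (x, y) = ψ (x, b j) * (if c y = some j then 1 else 0)
        rw [if_pos hj, mul_one]
        have := hp (x, b j) (0, w) (fun i => isIntegral_zero) hw
        simp only [Pi.zero_apply, mul_zero, add_zero] at this
        rw [← this, ← hyw]
      · intro l _ hl
        have : c y ≠ some l := by
          rw [hj]; intro h; exact hl (Option.some.inj h).symm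
        show ψ (x, b l) * (if c y = some l then 1 else 0) = 0
        rw [if_neg this, mul_zero]
      · intro h; exact absurd (Finset.mem_univ j) h
    · have h0 : ψ (x, y) = 0 := by
        by_contra hcon
        exact hy (hs _ hcon).2
      rw [h0]
      symm
      apply Finset.sum_eq_zero
      intro j _
      show ψ (x, b j) * (if c y = some j then 1 else 0) = 0
      rw [hn y hy]
      simp

end

end CMT
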