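import Pool.Agent.Lib.CMT.E.Kern

/-!
PROJECT CMT, part E: translations of the kernel by rational elements of SO(W), and the point r*.
-/

namespace CMT

open Finset

/-- The majorant at `r + ρ`. -/
theorem maj_add (b r ρ : ℝ) (X Y : Fin 3 → ℝ) :
    maj b r (fun i => Real.cosh ρ * X i + Real.sinh ρ * Y i)
      (fun i => Real.sinh ρ * X i + Real.cosh ρ * Y i) = maj b (r + ρ) X Y := by
  have h1 : (fun i => Real.cosh r * (Real.cosh ρ * X i + Real.sinh ρ * Y i) +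
      Real.sinh r * (Real.sinh ρ * X i + Real.cosh ρ * Y i)) =
      fun i => Real.cosh (r + ρ) * X i + Real.sinh (r + ρ) * Y i := by
    funext i
    rw [Real.cosh_add, Real.sinh_add]
    ring
  have h2 : (fun i => Real.sinh r * (Real.cosh ρ * X i + Real.sinh ρ * Y i) +
      Real.cosh r * (Real.sinh ρ * X i + Real.cosh ρ * Y i)) =
      fun i => Real.sinh (r + ρ) * X i + Real.cosh (r + ρ) * Y i := by
    funext i
    rw [Real.cosh_add, Real.sinh_add]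
    ring
  simp only [maj]
  rw [h1, h2]

theorem qf_smul (b c : ℝ) (x : Fin 3 → ℝ) : qf b (fun i => c * x i) = c ^ 2 * qf b x := by
  simp only [qf]
  ring

theorem maj_zero (b : ℝ) (X Y : Fin 3 → ℝ) : maj b 0 X Y = qf b X + qf b Y := by
  simp [maj]

/-- The sign-free hyperbolic identity at the point of the decomposition `<a3> + <a4>`. -/
theorem maj_star (b a1 a2 X Y : ℝ) (h12 : a1 * a2 < 0) (h3 : a1 * X ^ 2 + a2 * Y ^ 2 ≠ 0)
    (x y : Fin 3 → ℝ) :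
    maj b (Real.log (|Real.sqrt |a1| * X - Real.sqrt |a2| * Y| /
        |Real.sqrt |a1| * X + Real.sqrt |a2| * Y|) / 2)
      (fun i => Real.sqrt |a1| * (X * x i + (-(a2 * Y)) * y i))
      (fun i => Real.sqrt |a2| * (Y * x i + a1 * X * y i)) =
      |a1 * X ^ 2 + a2 * Y ^ 2| * qf b x +
        |a1 * a2 * (a1 * X ^ 2 + a2 * Y ^ 2)| * qf b y := by
  set s := Real.sqrt |a1| with hs
  set u := Real.sqrt |a2| with hu
  have s2 : s ^ 2 = |a1| := Real.sq_sqrt (abs_nonneg _)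
  have u2 : u ^ 2 = |a2| := Real.sq_sqrt (abs_nonneg _)
  obtain ⟨ε, hε, e1, e2⟩ : ∃ ε : ℝ, ε ^ 2 = 1 ∧ a1 = ε * s ^ 2 ∧ a2 = -(ε * u ^ 2) := by
    rcases mul_neg_iff.mp h12 with ⟨p1, p2⟩ | ⟨p1, p2⟩
    · exact ⟨1, by norm_num, by rw [s2, abs_of_pos p1]; ring, by rw [u2, abs_of_neg p2]; ring⟩
    · exact ⟨-1, by norm_num, by rw [s2, abs_of_neg p1]; ring, by rw [u2, abs_of_pos p2]; ring⟩
  have ε1 : |ε| = 1 := by
    have h : (ε - 1) * (ε + 1) = 0 := by linear_combination hε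
    rcases mul_eq_zero.mp h with h | h
    · rw [sub_eq_zero.mp h, abs_one]
    · rw [eq_neg_of_add_eq_zero_left h, abs_neg, abs_one]
  have ea3 : a1 * X ^ 2 + a2 * Y ^ 2 = ε * ((s * X - u * Y) * (s * X + u * Y)) := by
    rw [e1, e2]; ring
  have hm : s * X - u * Y ≠ 0 := fun h => h3 (by rw [ea3, h]; ring)
  have hp : s * X + u * Y ≠ 0 := fun h => h3 (by rw [ea3, h]; ring)
  have hmp := abs_pos.mpr hm
  have hpp := abs_pos.mpr hp
  set M := |s * X - u * Y| with hM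
  set P := |s * X + u * Y| with hP
  have M2 : M ^ 2 = (s * X - u * Y) ^ 2 := sq_abs _
  have P2 : P ^ 2 = (s * X + u * Y) ^ 2 := sq_abs _
  have a3 : |a1 * X ^ 2 + a2 * Y ^ 2| = M * P := by
    rw [ea3, abs_mul, abs_mul, ε1, one_mul]
  have a4 : |a1 * a2 * (a1 * X ^ 2 + a2 * Y ^ 2)| = s ^ 2 * u ^ 2 * (M * P) := by
    rw [abs_mul, abs_mul, a3, s2, u2]
  have hq : 0 < M / P := div_pos hmp hpp
  have hMP : M * P ≠ 0 := (mul_pos hmp hpp).ne'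
  have hw : M * P = (M * P)⁻¹ * ((s * X - u * Y) * (s * X + u * Y)) ^ 2 := by
    rw [mul_pow, ← M2, ← P2]
    field_simp
  have hc : Real.cosh (2 * (Real.log (M / P) / 2)) =
      (M * P)⁻¹ * (s ^ 2 * X ^ 2 + u ^ 2 * Y ^ 2) := by
    rw [mul_div_cancel₀ _ (two_ne_zero), Real.cosh_log hq]
    have : (M / P + (M / P)⁻¹) / 2 = (M * P)⁻¹ * ((M ^ 2 + P ^ 2) / 2) := by
      field_simp
    rw [this, M2, P2]
    ring
  have hsn : Real.sinh (2 * (Real.log (M / P) / 2)) = (M * P)⁻¹ * (-(2 * s * u * X * Y)) := by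
    rw [mul_div_cancel₀ _ (two_ne_zero), Real.sinh_log hq]
    have : (M / P - (M / P)⁻¹) / 2 = (M * P)⁻¹ * ((M ^ 2 - P ^ 2) / 2) := by
      field_simp
    rw [this, M2, P2]
    ring
  rw [maj_eq, hc, hsn, a3, a4]
  generalize hW : (M * P)⁻¹ = w at *
  rw [hw]
  simp only [qf]
  rw [e1, e2]
  linear_combination (w * (s ^ 2 * X ^ 2 + u ^ 2 * Y ^ 2) *
      (s ^ 2 * u ^ 4 * Y ^ 2 + u ^ 2 * s ^ 4 * X ^ 2) -
      4 * w * (s * u * X * Y) * (s * u) * (s ^ 2 * u ^ 2 * X * Y)) *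
      (y 0 ^ 2 + y 1 ^ 2 - b * y 2 ^ 2) * hε

variable {F : Type*} [Field F] [NumberField F]

omit [NumberField F] in
/-- At `r = 0` the exponent of the kernel is the sum of the two exponents. -/
theorem e2_zero (Δ β a1 a2 : F) (t : F →+* ℝ) (p : (Fin 3 → F) × (Fin 3 → F)) :
    e2 Δ β a1 a2 t 0 p = e1 Δ β a1 t p.1 + e1 Δ β a2 t p.2 := by
  have h : maj (t β) 0 (fun i => Real.sqrt |t a1| * t (p.1 i))
      (fun i => Real.sqrt |t a2| * t (p.2 i)) =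
      |t a1| * qf (t β) (vt t p.1) + |t a2| * qf (t β) (vt t p.2) := by
    rw [maj_zero, qf_smul, qf_smul, Real.sq_sqrt (abs_nonneg _), Real.sq_sqrt (abs_nonneg _)]
    rfl
  simp only [e2, e1]
  rw [h, ite_self]
  ring

/-- The parameter of the decomposition `<a3> + <a4>`, `a3 = a1 X² + a2 Y²`, `a4 = a1 a2 a3`. -/
noncomputable def rstar (a1 a2 X Y : F) (t : F →+* ℝ) : ℝ :=
  Real.log (|Real.sqrt |t a1| * t X - Real.sqrt |t a2| * t Y| /
    |Real.sqrt |t a1| * t X + Real.sqrt |t a2| * t Y|) / 2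

private theorem e2_star (Δ β a1 a2 X Y : F) (h3 : a1 * X ^ 2 + a2 * Y ^ 2 ≠ 0) (t : F →+* ℝ)
    (h12 : t a1 * t a2 < 0) (p : (Fin 3 → F) × (Fin 3 → F)) :
    e2 Δ β a1 a2 t (rstar a1 a2 X Y t) (sub2 X (-(a2 * Y)) Y (a1 * X) p) =
      e2 Δ β (a1 * X ^ 2 + a2 * Y ^ 2) (a1 * a2 * (a1 * X ^ 2 + a2 * Y ^ 2)) t 0 p := by
  have h3' : t a1 * t X ^ 2 + t a2 * t Y ^ 2 ≠ 0 := by
    have := (map_ne_zero t).mpr h3
    simpa using this
  rw [e2_zero]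
  simp only [e2, e1]
  rw [if_pos h12, ← mul_add]
  congr 1
  have M := maj_star (t β) (t a1) (t a2) (t X) (t Y) h12 h3' (vt t p.1) (vt t p.2)
  have f1 : (fun i => Real.sqrt |t a1| * t ((sub2 X (-(a2 * Y)) Y (a1 * X) p).1 i)) =
      fun i => Real.sqrt |t a1| * (t X * vt t p.1 i + (-(t a2 * t Y)) * vt t p.2 i) := by
    funext i
    simp [sub2, vt]
  have f2 : (fun i => Real.sqrt |t a2| * t ((sub2 X (-(a2 * Y)) Y (a1 * X) p).2 i)) =
      fun i => Real.sqrt |t a2| * (t Y * vt t p.1 i + t a1 * t X * vt t p.2 i) := by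
    funext i
    simp [sub2, vt]
  rw [f1, f2]
  simp only [map_add, map_mul, map_pow]
  exact M

/-- (E4) The kernel at the point of the decomposition `<a3> + <a4>`. -/
theorem KK_star (Δ β : F) (t0 : F →+* ℝ) (a1 a2 X Y : F)
    (h3 : a1 * X ^ 2 + a2 * Y ^ 2 ≠ 0) (p1 : 0 < t0 a1) (p2 : 0 < t0 a2)
    (z : ℂ × ℂ) (ψ : (Fin 3 → F) × (Fin 3 → F) → ℂ) :
    KK Δ β t0 a1 a2 ψ z (rstar a1 a2 X Y) =
      (t0 (a1 * X ^ 2 + a2 * Y ^ 2) : ℂ) *
        KK Δ β t0 (a1 * X ^ 2 + a2 * Y ^ 2) (a1 * a2 * (a1 * X ^ 2 + a2 * Y ^ 2))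
          (ψ ∘ sub2 X (-(a2 * Y)) Y (a1 * X)) z 0 := by
  have ha1 : a1 ≠ 0 := fun h => by simp [h] at p1
  have ha2 : a2 ≠ 0 := fun h => by simp [h] at p2
  have hd : X * (a1 * X) - -(a2 * Y) * Y = a1 * X ^ 2 + a2 * Y ^ 2 := by ring
  have K := KK_gram Δ β t0 a1 a2 (a1 * X ^ 2 + a2 * Y ^ 2)
    (a1 * a2 * (a1 * X ^ 2 + a2 * Y ^ 2)) X (-(a2 * Y)) Y (a1 * X) rfl (by ring) (by ring)
    (by rw [hd]; exact h3) p1 p2 ha1 ha2 (rstar a1 a2 X Y) 0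
    (fun t ht p => e2_star Δ β a1 a2 X Y h3 t ht p) z ψ
  rw [K, hd]

end CMT
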