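import Pool.Agent.Lib.CMT.Defs

/-!
PROJECT CMT, part E: linear substitutions `(x, y) ↦ M (x, y)`, `M ∈ GL₂(F)`, in the kernel.

`ker_sub`: if `Mᵀ diag(a1, a2) M = diag(a3, a4)`, then
`ker a1 a2 E ψ z = t0(det M) * ker a3 a4 (Mᵀ E M) (ψ ∘ M) z`.
-/

namespace CMT

open Finset

/-- The substitution `(x, y) ↦ M (x, y)` on pairs of vectors. -/
def sb {F : Type} [Field F] (M : Matrix (Fin 2) (Fin 2) F) (p : (Fin 3 → F) × (Fin 3 → F)) :
    (Fin 3 → F) × (Fin 3 → F) :=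
  (fun i => M 0 0 * p.1 i + M 0 1 * p.2 i, fun i => M 1 0 * p.1 i + M 1 1 * p.2 i)

theorem sb_mul {F : Type} [Field F] (M N : Matrix (Fin 2) (Fin 2) F)
    (p : (Fin 3 → F) × (Fin 3 → F)) : sb (M * N) p = sb M (sb N p) := by
  ext i
  · simp only [sb, Matrix.mul_apply, Fin.sum_univ_two]
    ring
  · simp only [sb, Matrix.mul_apply, Fin.sum_univ_two]
    ring

theorem sb_one {F : Type} [Field F] (p : (Fin 3 → F) × (Fin 3 → F)) :
    sb (1 : Matrix (Fin 2) (Fin 2) F) p = p := by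
  ext i <;> simp [sb]

/-- The substitution as an equivalence. -/
noncomputable def sbE {F : Type} [Field F] (M : Matrix (Fin 2) (Fin 2) F) (h : M.det ≠ 0) :
    (Fin 3 → F) × (Fin 3 → F) ≃ (Fin 3 → F) × (Fin 3 → F) where
  toFun := sb M
  invFun := sb M⁻¹
  left_inv p := by
    rw [← sb_mul, Matrix.nonsing_inv_mul _ (isUnit_iff_ne_zero.mpr h), sb_one]
  right_inv p := by
    rw [← sb_mul, Matrix.mul_nonsing_inv _ (isUnit_iff_ne_zero.mpr h), sb_one]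

theorem du_lin (b A B : ℝ) (x y : Fin 3 → ℝ) (z : ℂ × ℂ) :
    du b (fun i => A * x i + B * y i) z = (A : ℂ) • du b x z + (B : ℂ) • du b y z := by
  ext
  · simp only [du, ll, Prod.fst_add, Prod.smul_fst, smul_eq_mul]
    push_cast
    ring
  · simp only [du, ll, Prod.snd_add, Prod.smul_snd, smul_eq_mul]
    push_cast
    ring

theorem uu_lin (b A B : ℝ) (x y : Fin 3 → ℝ) (z : ℂ × ℂ) :
    uu b (fun i => A * x i + B * y i) z = (A : ℂ) * uu b x z + (B : ℂ) * uu b y z := by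
  simp only [uu, ll]
  push_cast
  ring

theorem wedge_lin (A B C D : ℂ) (p q : ℂ × ℂ) :
    wedge (A • p + B • q) (C • p + D • q) = (A * D - B * C) * wedge p q := by
  simp only [wedge, Prod.fst_add, Prod.snd_add, Prod.smul_fst, Prod.smul_snd, smul_eq_mul]
  ring

/-- Gram identity for `(x,x) + 2 u²`. -/
theorem quad_gram (b a1 a2 a3 a4 A B C D : ℝ) (h3 : a1 * A ^ 2 + a2 * C ^ 2 = a3)
    (h4 : a1 * B ^ 2 + a2 * D ^ 2 = a4) (h0 : a1 * A * B + a2 * C * D = 0)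
    (x y : Fin 3 → ℝ) (z : ℂ × ℂ) :
    (a1 : ℂ) * (((qf b (fun i => A * x i + B * y i) (fun i => A * x i + B * y i) : ℝ) : ℂ) +
        2 * uu b (fun i => A * x i + B * y i) z ^ 2) +
      a2 * (((qf b (fun i => C * x i + D * y i) (fun i => C * x i + D * y i) : ℝ) : ℂ) +
        2 * uu b (fun i => C * x i + D * y i) z ^ 2) =
      a3 * (((qf b x x : ℝ) : ℂ) + 2 * uu b x z ^ 2) +
        a4 * (((qf b y y : ℝ) : ℂ) + 2 * uu b y z ^ 2) := by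
  rw [uu_lin, uu_lin]
  have h3' : (a1 : ℂ) * A ^ 2 + a2 * C ^ 2 = a3 := by exact_mod_cast h3
  have h4' : (a1 : ℂ) * B ^ 2 + a2 * D ^ 2 = a4 := by exact_mod_cast h4
  have h0' : (a1 : ℂ) * A * B + a2 * C * D = 0 := by exact_mod_cast h0
  simp only [qf]
  push_cast
  linear_combination
    (((x 0 : ℂ) * x 0 + x 1 * x 1 - b * (x 2 * x 2)) + 2 * uu b x z ^ 2) * h3' +
    (((y 0 : ℂ) * y 0 + y 1 * y 1 - b * (y 2 * y 2)) + 2 * uu b y z ^ 2) * h4' +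
    (2 * ((x 0 : ℂ) * y 0 + x 1 * y 1 - b * (x 2 * y 2)) + 4 * uu b x z * uu b y z) * h0'

variable {F : Type} [Field F] [NumberField F]

/-- The Gram identity `Mᵀ diag(a1, a2) M = diag(a3, a4)`. -/
def Gram (M : Matrix (Fin 2) (Fin 2) F) (a1 a2 a3 a4 : F) : Prop :=
  a1 * M 0 0 ^ 2 + a2 * M 1 0 ^ 2 = a3 ∧ a1 * M 0 1 ^ 2 + a2 * M 1 1 ^ 2 = a4 ∧
    a1 * M 0 0 * M 0 1 + a2 * M 1 0 * M 1 1 = 0

private theorem rx1 (t : F →+* ℝ) (M : Matrix (Fin 2) (Fin 2) F)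
    (p : (Fin 3 → F) × (Fin 3 → F)) :
    rx t (sb M p).1 = fun i => t (M 0 0) * rx t p.1 i + t (M 0 1) * rx t p.2 i := by
  funext i
  simp [rx, sb]

private theorem rx2 (t : F →+* ℝ) (M : Matrix (Fin 2) (Fin 2) F)
    (p : (Fin 3 → F) × (Fin 3 → F)) :
    rx t (sb M p).2 = fun i => t (M 1 0) * rx t p.1 i + t (M 1 1) * rx t p.2 i := by
  funext i
  simp [rx, sb]

/-- The exponent at `t0` under a substitution. -/
theorem e0_sub (D : Dat F) (M : Matrix (Fin 2) (Fin 2) F) {a1 a2 a3 a4 : F}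
    (h : Gram M a1 a2 a3 a4) (p1 : 0 < D.t0 a1) (p2 : 0 < D.t0 a2) (z : ℂ × ℂ)
    (p : (Fin 3 → F) × (Fin 3 → F)) :
    e0 D a1 (sb M p).1 z + e0 D a2 (sb M p).2 z = e0 D a3 p.1 z + e0 D a4 p.2 z := by
  obtain ⟨h3, h4, h0⟩ := h
  have H3 : D.t0 a1 * D.t0 (M 0 0) ^ 2 + D.t0 a2 * D.t0 (M 1 0) ^ 2 = D.t0 a3 := by
    rw [← h3]; simp
  have H4 : D.t0 a1 * D.t0 (M 0 1) ^ 2 + D.t0 a2 * D.t0 (M 1 1) ^ 2 = D.t0 a4 := by
    rw [← h4]; simp
  have H0 : D.t0 a1 * D.t0 (M 0 0) * D.t0 (M 0 1) + D.t0 a2 * D.t0 (M 1 0) * D.t0 (M 1 1) = 0 := by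
    have := congrArg D.t0 h0
    simpa using this
  have p3 : 0 ≤ D.t0 a3 := by rw [← H3]; positivity
  have p4 : 0 ≤ D.t0 a4 := by rw [← H4]; positivity
  have Q := quad_gram (D.t0 D.bet) _ _ _ _ _ _ _ _ H3 H4 H0 (rx D.t0 p.1) (rx D.t0 p.2) z
  simp only [e0]
  rw [rx1, rx2, abs_of_pos p1, abs_of_pos p2, abs_of_nonneg p3, abs_of_nonneg p4]
  push_cast at Q ⊢
  linear_combination ((kap D D.t0 : ℝ) : ℂ) * Q

/-- The exponent at the other places under a substitution. -/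
theorem e2_sub (D : Dat F) (M : Matrix (Fin 2) (Fin 2) F)
    (E : (F →+* ℝ) → Matrix (Fin 2) (Fin 2) ℝ) (p : (Fin 3 → F) × (Fin 3 → F)) :
    e2 D E (sb M p).1 (sb M p).2 =
      e2 D (fun t => (M.map t).transpose * E t * M.map t) p.1 p.2 := by
  simp only [e2]
  refine Finset.sum_congr rfl (fun t _ => ?_)
  rw [rx1, rx2]
  congr 1
  simp only [Matrix.mul_apply, Fin.sum_univ_two, Matrix.transpose_apply, Matrix.map_apply, qf]
  ring

/-- THE SUBSTITUTION LEMMA. -/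
theorem ker_sub (D : Dat F) (M : Matrix (Fin 2) (Fin 2) F) (hM : M.det ≠ 0) {a1 a2 a3 a4 : F}
    (h : Gram M a1 a2 a3 a4) (p1 : 0 < D.t0 a1) (p2 : 0 < D.t0 a2)
    (E : (F →+* ℝ) → Matrix (Fin 2) (Fin 2) ℝ) (ψ : (Fin 3 → F) × (Fin 3 → F) → ℂ)
    (z : ℂ × ℂ) :
    ker D a1 a2 E ψ z = (D.t0 M.det : ℂ) *
      ker D a3 a4 (fun t => (M.map t).transpose * E t * M.map t) (ψ ∘ sb M) z := by
  simp only [ker]
  rw [← tsum_mul_left, ← (sbE M hM).tsum_eq]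
  refine tsum_congr (fun p => ?_)
  show ψ (sb M p) * tm2 D a1 a2 E (sb M p).1 (sb M p).2 z *
    wedge (du (D.t0 D.bet) (rx D.t0 (sb M p).1) z) (du (D.t0 D.bet) (rx D.t0 (sb M p).2) z) = _
  have hw : wedge (du (D.t0 D.bet) (rx D.t0 (sb M p).1) z)
      (du (D.t0 D.bet) (rx D.t0 (sb M p).2) z) = (D.t0 M.det : ℂ) *
      wedge (du (D.t0 D.bet) (rx D.t0 p.1) z) (du (D.t0 D.bet) (rx D.t0 p.2) z) := by
    rw [rx1, rx2, du_lin, du_lin, wedge_lin, Matrix.det_fin_two]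
    simp only [map_sub, map_mul]
    push_cast
    ring
  have ht : tm2 D a1 a2 E (sb M p).1 (sb M p).2 z =
      tm2 D a3 a4 (fun t => (M.map t).transpose * E t * M.map t) p.1 p.2 z := by
    simp only [tm2]
    rw [e2_sub, add_assoc, e0_sub D M h p1 p2 z p, add_assoc]
  rw [hw, ht]
  simp only [Function.comp]
  ring

end CMT
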