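import Pool.Agent.Lib.CMT.E.Star

/-!
PROJECT CMT, part E: translations of the kernel by rational elements of SO(W).
-/

namespace CMT

open Finset

variable {F : Type*} [Field F] [NumberField F]

/-- The translation of the parameter given by `v ∈ F`:
`sgn(t a1) log((1 + m v)/(1 - m v))`, `m = sqrt|t a1| sqrt|t a2|`. -/
noncomputable def rv (a1 a2 v : F) (t : F →+* ℝ) : ℝ :=
  SignType.sign (t a1) * Real.log ((1 + Real.sqrt |t a1| * Real.sqrt |t a2| * t v) /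
    (1 - Real.sqrt |t a1| * Real.sqrt |t a2| * t v))

/-- First entry of the rational element of SO(W). -/
def gp (a1 a2 v : F) : F := (1 - a1 * a2 * v ^ 2) / (1 + a1 * a2 * v ^ 2)

/-- Second entry of the rational element of SO(W). -/
def gq (a1 a2 v : F) : F := 2 * v / (1 + a1 * a2 * v ^ 2)

omit [NumberField F] in
theorem den_ne (a1 a2 v : F) (t0 : F →+* ℝ) (p1 : 0 < t0 a1) (p2 : 0 < t0 a2) :
    1 + a1 * a2 * v ^ 2 ≠ 0 := by
  intro h
  have := congrArg t0 h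
  simp only [map_add, map_mul, map_pow, map_one, map_zero] at this
  nlinarith [mul_nonneg (mul_pos p1 p2).le (sq_nonneg (t0 v))]

omit [NumberField F] in
theorem gpq (a1 a2 v : F) (h : 1 + a1 * a2 * v ^ 2 ≠ 0) :
    gp a1 a2 v ^ 2 + a1 * a2 * gq a1 a2 v ^ 2 = 1 := by
  simp only [gp, gq]
  field_simp
  ring

private theorem real_trans (b a1 a2 v r : ℝ) (h12 : a1 * a2 < 0)
    (hv : Real.sqrt |a1| * Real.sqrt |a2| * |v| < 1) (x y : Fin 3 → ℝ) :
    maj b r (fun i => Real.sqrt |a1| *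
        ((1 - a1 * a2 * v ^ 2) / (1 + a1 * a2 * v ^ 2) * x i +
          (-(a2 * (2 * v / (1 + a1 * a2 * v ^ 2)))) * y i))
      (fun i => Real.sqrt |a2| *
        (a1 * (2 * v / (1 + a1 * a2 * v ^ 2)) * x i +
          (1 - a1 * a2 * v ^ 2) / (1 + a1 * a2 * v ^ 2) * y i)) =
      maj b (r + SignType.sign a1 * Real.log ((1 + Real.sqrt |a1| * Real.sqrt |a2| * v) /
        (1 - Real.sqrt |a1| * Real.sqrt |a2| * v)))
        (fun i => Real.sqrt |a1| * x i) (fun i => Real.sqrt |a2| * y i) := by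
  set s := Real.sqrt |a1| with hs
  set u := Real.sqrt |a2| with hu
  have s2 : s ^ 2 = |a1| := Real.sq_sqrt (abs_nonneg _)
  have u2 : u ^ 2 = |a2| := Real.sq_sqrt (abs_nonneg _)
  have s0 : 0 ≤ s := Real.sqrt_nonneg _
  have u0 : 0 ≤ u := Real.sqrt_nonneg _
  obtain ⟨ε, hε, e0, e1, e2⟩ : ∃ ε : ℝ, (ε = 1 ∨ ε = -1) ∧ ((SignType.sign a1 : SignType) : ℝ) = ε ∧
      a1 = ε * s ^ 2 ∧ a2 = -(ε * u ^ 2) := by
    rcases mul_neg_iff.mp h12 with ⟨p1, p2⟩ | ⟨p1, p2⟩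
    · exact ⟨1, Or.inl rfl, by rw [sign_pos p1]; simp, by rw [s2, abs_of_pos p1]; ring,
        by rw [u2, abs_of_neg p2]; ring⟩
    · exact ⟨-1, Or.inr rfl, by rw [sign_neg p1]; simp, by rw [s2, abs_of_neg p1]; ring,
        by rw [u2, abs_of_pos p2]; ring⟩
  have ε2 : ε ^ 2 = 1 := by rcases hε with h | h <;> rw [h] <;> norm_num
  have hw : |s * u * v| < 1 := by
    rw [abs_mul, abs_of_nonneg (mul_nonneg s0 u0)]; exact hv
  obtain ⟨w1, w2⟩ := abs_lt.mp hw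
  have hA : 0 < 1 + s * u * v := by linarith
  have hB : 0 < 1 - s * u * v := by linarith
  have e12 : a1 * a2 = -(s ^ 2 * u ^ 2) := by
    rw [e1, e2]; linear_combination -(s ^ 2 * u ^ 2) * ε2
  have hq : 0 < (1 + s * u * v) / (1 - s * u * v) := div_pos hA hB
  have hden : 1 + a1 * a2 * v ^ 2 = (1 + s * u * v) * (1 - s * u * v) := by
    rw [e12]; ring
  have hc : Real.cosh (ε * Real.log ((1 + s * u * v) / (1 - s * u * v))) =
      (1 - a1 * a2 * v ^ 2) / (1 + a1 * a2 * v ^ 2) := by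
    have : Real.cosh (ε * Real.log ((1 + s * u * v) / (1 - s * u * v))) =
        Real.cosh (Real.log ((1 + s * u * v) / (1 - s * u * v))) := by
      rcases hε with h | h
      · rw [h, one_mul]
      · rw [h, neg_one_mul, Real.cosh_neg]
    rw [this, Real.cosh_log hq, hden, e12]
    field_simp
    ring
  have hsn : Real.sinh (ε * Real.log ((1 + s * u * v) / (1 - s * u * v))) =
      ε * (2 * (s * u * v) / (1 + a1 * a2 * v ^ 2)) := by
    have : Real.sinh (ε * Real.log ((1 + s * u * v) / (1 - s * u * v))) =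
        ε * Real.sinh (Real.log ((1 + s * u * v) / (1 - s * u * v))) := by
      rcases hε with h | h
      · rw [h, one_mul, one_mul]
      · rw [h, neg_one_mul, Real.sinh_neg, neg_one_mul]
    rw [this, Real.sinh_log hq, hden]
    congr 1
    field_simp
    ring
  rw [e0, ← maj_add, hc, hsn]
  generalize (1 + a1 * a2 * v ^ 2) = d
  generalize (1 - a1 * a2 * v ^ 2) = c
  congr 1
  · funext i
    rw [e2]
    ring
  · funext i
    rw [e1]
    ring

private theorem e2_trans (Δ β a1 a2 v : F) (t : F →+* ℝ) (h12 : t a1 * t a2 < 0)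
    (hv : Real.sqrt |t a1| * Real.sqrt |t a2| * |t v| < 1) (r : ℝ)
    (p : (Fin 3 → F) × (Fin 3 → F)) :
    e2 Δ β a1 a2 t r (sub2 (gp a1 a2 v) (-(a2 * gq a1 a2 v)) (a1 * gq a1 a2 v) (gp a1 a2 v) p) =
      e2 Δ β a1 a2 t (r + rv a1 a2 v t) p := by
  have t2 : t 2 = 2 := map_ofNat t 2
  have M := real_trans (t β) (t a1) (t a2) (t v) r h12 hv (vt t p.1) (vt t p.2)
  simp only [e2]
  rw [if_pos h12, if_pos h12]
  congr 1
  have f1 : (fun i => Real.sqrt |t a1| *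
      t ((sub2 (gp a1 a2 v) (-(a2 * gq a1 a2 v)) (a1 * gq a1 a2 v) (gp a1 a2 v) p).1 i)) =
      fun i => Real.sqrt |t a1| *
        ((1 - t a1 * t a2 * t v ^ 2) / (1 + t a1 * t a2 * t v ^ 2) * vt t p.1 i +
          (-(t a2 * (2 * t v / (1 + t a1 * t a2 * t v ^ 2)))) * vt t p.2 i) := by
    funext i
    simp [sub2, vt, gp, gq, t2]
  have f2 : (fun i => Real.sqrt |t a2| *
      t ((sub2 (gp a1 a2 v) (-(a2 * gq a1 a2 v)) (a1 * gq a1 a2 v) (gp a1 a2 v) p).2 i)) =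
      fun i => Real.sqrt |t a2| *
        (t a1 * (2 * t v / (1 + t a1 * t a2 * t v ^ 2)) * vt t p.1 i +
          (1 - t a1 * t a2 * t v ^ 2) / (1 + t a1 * t a2 * t v ^ 2) * vt t p.2 i) := by
    funext i
    simp [sub2, vt, gp, gq, t2]
  rw [f1, f2, M]
  rfl

/-- (E2) Translation of the parameter by a rational element of SO(W). -/
theorem KK_trans (Δ β : F) (t0 : F →+* ℝ) (a1 a2 v : F) (p1 : 0 < t0 a1) (p2 : 0 < t0 a2)
    (hv : ∀ t : F →+* ℝ, t a1 * t a2 < 0 → Real.sqrt |t a1| * Real.sqrt |t a2| * |t v| < 1)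
    (r : (F →+* ℝ) → ℝ) (z : ℂ × ℂ) (ψ : (Fin 3 → F) × (Fin 3 → F) → ℂ) :
    KK Δ β t0 a1 a2 ψ z r = KK Δ β t0 a1 a2
      (ψ ∘ sub2 (gp a1 a2 v) (-(a2 * gq a1 a2 v)) (a1 * gq a1 a2 v) (gp a1 a2 v)) z
      (fun t => r t + rv a1 a2 v t) := by
  have ha1 : a1 ≠ 0 := fun h => by simp [h] at p1
  have ha2 : a2 ≠ 0 := fun h => by simp [h] at p2
  have hd := gpq a1 a2 v (den_ne a1 a2 v t0 p1 p2)
  have hd' : gp a1 a2 v * gp a1 a2 v - -(a2 * gq a1 a2 v) * (a1 * gq a1 a2 v) = 1 := by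
    linear_combination hd
  have K := KK_gram Δ β t0 a1 a2 a1 a2 (gp a1 a2 v) (-(a2 * gq a1 a2 v)) (a1 * gq a1 a2 v)
    (gp a1 a2 v) (by linear_combination a1 * hd) (by linear_combination a2 * hd) (by ring)
    (by rw [hd']; exact one_ne_zero) p1 p2 ha1 ha2 r (fun t => r t + rv a1 a2 v t)
    (fun t ht p => e2_trans Δ β a1 a2 v t ht (hv t ht) (r t) p) z ψ
  rw [K, hd']
  simp

omit [NumberField F] in
/-- `rv` is odd. -/
theorem rv_neg (a1 a2 v : F) (t : F →+* ℝ) :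
    rv a1 a2 (-v) t = - rv a1 a2 v t := by
  simp only [rv]
  rw [map_neg, mul_neg, ← sub_eq_add_neg, sub_neg_eq_add, ← mul_neg, ← Real.log_inv, inv_div]

/-- (E2) at `r = 0`: the value of the kernel at the rational point `rv a1 a2 v`. -/
theorem KK_rat (Δ β : F) (t0 : F →+* ℝ) (a1 a2 v : F) (p1 : 0 < t0 a1) (p2 : 0 < t0 a2)
    (hv : ∀ t : F →+* ℝ, t a1 * t a2 < 0 → Real.sqrt |t a1| * Real.sqrt |t a2| * |t v| < 1)
    (z : ℂ × ℂ) (ψ : (Fin 3 → F) × (Fin 3 → F) → ℂ) :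
    KK Δ β t0 a1 a2 ψ z (rv a1 a2 v) = KK Δ β t0 a1 a2
      (ψ ∘ sub2 (gp a1 a2 (-v)) (-(a2 * gq a1 a2 (-v))) (a1 * gq a1 a2 (-v)) (gp a1 a2 (-v)))
      z 0 := by
  rw [KK_trans Δ β t0 a1 a2 (-v) p1 p2 (by simpa using hv) (rv a1 a2 v) z ψ]
  congr 1
  funext t
  rw [rv_neg]
  simp

/-- The parameter matters only at the mixed places. -/
theorem KK_congr (Δ β : F) (t0 : F →+* ℝ) (a1 a2 : F)
    (z : ℂ × ℂ) (ψ : (Fin 3 → F) × (Fin 3 → F) → ℂ) (r r' : (F →+* ℝ) → ℝ)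
    (h : ∀ t : F →+* ℝ, t a1 * t a2 < 0 → r t = r' t) :
    KK Δ β t0 a1 a2 ψ z r = KK Δ β t0 a1 a2 ψ z r' := by
  have E : ∀ (t : F →+* ℝ) p, e2 Δ β a1 a2 t (r t) p = e2 Δ β a1 a2 t (r' t) p := by
    intro t p
    by_cases ht : t a1 * t a2 < 0
    · rw [h t ht]
    · simp only [e2]
      rw [if_neg ht, if_neg ht]
  simp only [KK, KKt, E]

end CMT
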